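/-
MP_72c0ec_gt (Santalo's shadow perimeter inequality), helper9: the area of a planar convex body grows
by at least (length) x (width) when a segment is added; first in coordinates, then in any
two-dimensional Euclidean space.
-/
import Mathlib

set_option autoImplicit false

open MeasureTheory Set
open scoped Pointwise ENNReal

namespace SanSym

/-- Slice version: adding a horizontal segment of length `α` to a planar compact convex set. -/
theorem seg_prod {Q : Set (ℝ × ℝ)} (hQc : IsCompact Q) (hQ : Convex ℝ Q) {α : ℝ} (hα : 0 ≤ α)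
    {x y : ℝ × ℝ} (hx : x ∈ Q) (hy : y ∈ Q) :
    volume Q + ENNReal.ofReal (α * (x.2 - y.2)) ≤
      volume (Q + segment ℝ (0 : ℝ × ℝ) (α, 0)) := by
  set T : Set (ℝ × ℝ) := Q + segment ℝ (0 : ℝ × ℝ) (α, 0) with hT
  have hsegc : IsCompact (segment ℝ (0 : ℝ × ℝ) (α, 0)) := by
    rw [segment_eq_image_lineMap]
    exact isCompact_Icc.image AffineMap.lineMap_continuous
  have hTc : IsCompact T := hQc.add hsegc
  have hQT : Q ⊆ T := by
    intro q hq
    exact ⟨q, hq, 0, left_mem_segment ℝ _ _, by simp⟩
  rcases lt_or_ge x.2 y.2 with hxy | hxy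
  · have h0 : α * (x.2 - y.2) ≤ 0 := mul_nonpos_of_nonneg_of_nonpos hα (by linarith)
    rw [ENNReal.ofReal_of_nonpos h0, add_zero]
    exact measure_mono hQT
  -- slice inequality
  have hslice : ∀ t : ℝ, volume ((fun s : ℝ => (s, t)) ⁻¹' Q) +
      (Icc y.2 x.2).indicator (fun _ => ENNReal.ofReal α) t ≤
      volume ((fun s : ℝ => (s, t)) ⁻¹' T) := by
    intro t
    by_cases ht : t ∈ Icc y.2 x.2
    · rw [indicator_of_mem ht]
      set A : Set ℝ := (fun s : ℝ => (s, t)) ⁻¹' Q with hA
      have hAne : A.Nonempty := by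
        have hconv : Convex ℝ (Prod.snd '' Q) := by
          have := hQ.linear_image (LinearMap.snd ℝ ℝ ℝ)
          simpa using this
        have hord : (Prod.snd '' Q).OrdConnected := hconv.ordConnected
        obtain ⟨q, hq, hqt⟩ := hord.out (mem_image_of_mem _ hy) (mem_image_of_mem _ hx) ht
        refine ⟨q.1, ?_⟩
        show (q.1, t) ∈ Q
        rw [← hqt]; exact hq
      have hAc : IsCompact A := by
        have hcl : IsClosed A := hQc.isClosed.preimage (by fun_prop)
        have hsub : A ⊆ Prod.fst '' Q := fun s hs => ⟨(s, t), hs, rfl⟩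
        exact (hQc.image continuous_fst).of_isClosed_subset hcl hsub
      have hr : sSup A ∈ A := hAc.sSup_mem hAne
      set r := sSup A with hrdef
      have hub : ∀ s ∈ A, s ≤ r := fun s hs => le_csSup hAc.bddAbove hs
      have hsub : A ∪ Ioc r (r + α) ⊆ (fun s : ℝ => (s, t)) ⁻¹' T := by
        rintro s (hs | hs)
        · exact hQT hs
        · refine ⟨(r, t), hr, (s - r, 0), ?_, by simp⟩
          rcases hα.eq_or_lt with h0 | hpos
          · exfalso
            rw [← h0] at hs
            exact absurd (hs.1) (by linarith [hs.2])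
          · rw [segment_eq_image_lineMap]
            refine ⟨(s - r) / α, ⟨div_nonneg (by linarith [hs.1]) hα, ?_⟩, ?_⟩
            · rw [div_le_one hpos]; linarith [hs.2]
            · rw [AffineMap.lineMap_apply]
              simp only [vsub_eq_sub, sub_zero, vadd_eq_add, add_zero, Prod.smul_mk, smul_eq_mul,
                mul_zero, Prod.mk.injEq, and_true]
              field_simp
      have hdisj : Disjoint A (Ioc r (r + α)) := by
        rw [Set.disjoint_left]
        intro s hs hs'
        exact absurd (hub s hs) (not_le.mpr hs'.1)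
      calc volume A + ENNReal.ofReal α = volume A + volume (Ioc r (r + α)) := by
            rw [Real.volume_Ioc]; congr 2; ring
        _ = volume (A ∪ Ioc r (r + α)) := (measure_union hdisj measurableSet_Ioc).symm
        _ ≤ _ := measure_mono hsub
    · rw [indicator_of_notMem ht, add_zero]
      exact measure_mono (preimage_mono hQT)
  have hmQ : volume Q = ∫⁻ t : ℝ, volume ((fun s : ℝ => (s, t)) ⁻¹' Q) := by
    rw [Measure.volume_eq_prod, Measure.prod_apply_symm hQc.measurableSet]
  have hmT : volume T = ∫⁻ t : ℝ, volume ((fun s : ℝ => (s, t)) ⁻¹' T) := by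
    rw [Measure.volume_eq_prod, Measure.prod_apply_symm hTc.measurableSet]
  have hind : ENNReal.ofReal (α * (x.2 - y.2)) =
      ∫⁻ t : ℝ, (Icc y.2 x.2).indicator (fun _ => ENNReal.ofReal α) t := by
    rw [lintegral_indicator measurableSet_Icc, setLIntegral_const, Real.volume_Icc,
      ENNReal.ofReal_mul hα]
  rw [hmQ, hmT, hind, ← lintegral_add_right]
  · exact lintegral_mono hslice
  · exact measurable_const.indicator measurableSet_Icc

section Plane

variable {V : Type*} [NormedAddCommGroup V] [InnerProductSpace ℝ V] [FiniteDimensional ℝ V]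
  [MeasurableSpace V] [BorelSpace V]

/-- Coordinates with respect to an orthonormal basis of a plane. -/
noncomputable def crd (b : OrthonormalBasis (Fin 2) ℝ V) : V →ₗ[ℝ] ℝ × ℝ :=
  LinearMap.prod (innerₛₗ ℝ (b 0)) (innerₛₗ ℝ (b 1))

theorem crd_apply (b : OrthonormalBasis (Fin 2) ℝ V) (v : V) :
    crd b v = (inner ℝ (b 0) v, inner ℝ (b 1) v) := rfl

/-- Coordinates with respect to an orthonormal basis of a plane, as a measurable equivalence. -/
noncomputable def crdEquiv (b : OrthonormalBasis (Fin 2) ℝ V) : V ≃ᵐ ℝ × ℝ :=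
  (b.repr.toHomeomorph.toMeasurableEquiv.trans
    (MeasurableEquiv.toLp 2 (Fin 2 → ℝ)).symm).trans MeasurableEquiv.finTwoArrow

theorem crdEquiv_apply (b : OrthonormalBasis (Fin 2) ℝ V) (v : V) :
    crdEquiv b v = crd b v := by
  rw [crd_apply]
  show ((b.repr v) 0, (b.repr v) 1) = _
  rw [b.repr_apply_apply, b.repr_apply_apply]

theorem crdEquiv_mp (b : OrthonormalBasis (Fin 2) ℝ V) :
    MeasurePreserving (crdEquiv b) volume volume := by
  have h1 : MeasurePreserving (b.repr : V → EuclideanSpace ℝ (Fin 2)) volume volume :=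
    b.measurePreserving_repr
  have h2 : MeasurePreserving ((MeasurableEquiv.toLp 2 (Fin 2 → ℝ)).symm) volume volume :=
    PiLp.volume_preserving_ofLp (Fin 2)
  have h3 := volume_preserving_finTwoArrow ℝ
  exact h3.comp (h2.comp h1)

theorem volume_image_crd (b : OrthonormalBasis (Fin 2) ℝ V) (S : Set V) :
    volume (crd b '' S) = volume S := by
  have h : crd b '' S = crdEquiv b '' S := by
    ext p; simp [crdEquiv_apply]
  rw [h, ← (crdEquiv_mp b).measure_preimage_equiv (crdEquiv b '' S),
    (crdEquiv b).injective.preimage_image]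

/-- Adding a segment `[0, a]` to a plane compact convex set `Q` increases the area by at least
`⟪x - y, n⟫`, where `n` is orthogonal to `a` and has the same length, and `x, y ∈ Q`. -/
theorem seg_plane (hV : Module.finrank ℝ V = 2) {Q : Set V} (hQc : IsCompact Q)
    (hQ : Convex ℝ Q) {a n x y : V} (han : inner ℝ a n = 0) (hn : ‖n‖ = ‖a‖)
    (hx : x ∈ Q) (hy : y ∈ Q) :
    volume Q + ENNReal.ofReal (inner ℝ n (x - y)) ≤ volume (Q + segment ℝ (0 : V) a) := by
  have hQT : Q ⊆ Q + segment ℝ (0 : V) a := by
    intro q hq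
    exact ⟨q, hq, 0, left_mem_segment ℝ _ _, by simp⟩
  by_cases ha : a = 0
  · have hn0 : n = 0 := by
      rw [← norm_eq_zero, hn, ha, norm_zero]
    rw [hn0, inner_zero_left, ENNReal.ofReal_zero, add_zero]
    exact measure_mono hQT
  have hapos : 0 < ‖a‖ := norm_pos_iff.mpr ha
  have hnpos : 0 < ‖n‖ := by rw [hn]; exact hapos
  set v : Fin 2 → V := ![(‖a‖)⁻¹ • a, (‖a‖)⁻¹ • n] with hv
  have hon : Orthonormal ℝ v := by
    rw [orthonormal_iff_ite]
    intro i j
    fin_cases i <;> fin_cases j
    · show inner ℝ ((‖a‖)⁻¹ • a) ((‖a‖)⁻¹ • a) = (1 : ℝ)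
      rw [inner_smul_left, inner_smul_right, real_inner_self_eq_norm_sq, conj_trivial]
      field_simp
    · show inner ℝ ((‖a‖)⁻¹ • a) ((‖a‖)⁻¹ • n) = (0 : ℝ)
      rw [inner_smul_left, inner_smul_right, han, mul_zero, mul_zero]
    · show inner ℝ ((‖a‖)⁻¹ • n) ((‖a‖)⁻¹ • a) = (0 : ℝ)
      rw [inner_smul_left, inner_smul_right, real_inner_comm, han, mul_zero, mul_zero]
    · show inner ℝ ((‖a‖)⁻¹ • n) ((‖a‖)⁻¹ • n) = (1 : ℝ)
      rw [inner_smul_left, inner_smul_right, real_inner_self_eq_norm_sq, conj_trivial, hn]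
      field_simp
  have hcard : Fintype.card (Fin 2) = Module.finrank ℝ V := by simp [hV]
  have hspan : ⊤ ≤ Submodule.span ℝ (Set.range v) := by
    rw [hon.linearIndependent.span_eq_top_of_card_eq_finrank hcard]
  set b : OrthonormalBasis (Fin 2) ℝ V := OrthonormalBasis.mk hon hspan with hb
  have hb0 : b 0 = (‖a‖)⁻¹ • a := by simp [hb, hv]
  have hb1 : b 1 = (‖a‖)⁻¹ • n := by simp [hb, hv]
  have himgc : IsCompact (crd b '' Q) := hQc.image (crd b).continuous_of_finiteDimensional
  have himg : Convex ℝ (crd b '' Q) := hQ.linear_image (crd b)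
  have hca : crd b a = (‖a‖, 0) := by
    rw [crd_apply, hb0, hb1, inner_smul_left, inner_smul_left, real_inner_self_eq_norm_sq,
      real_inner_comm, han]
    simp only [conj_trivial, mul_zero, Prod.mk.injEq, and_true]
    field_simp
  have key := seg_prod himgc himg hapos.le (mem_image_of_mem (crd b) hx)
    (mem_image_of_mem (crd b) hy)
  have himage : crd b '' Q + segment ℝ (0 : ℝ × ℝ) (‖a‖, 0) =
      crd b '' (Q + segment ℝ (0 : V) a) := by
    have h1 : crd b '' segment ℝ (0 : V) a = segment ℝ (0 : ℝ × ℝ) (‖a‖, 0) := by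
      have := image_segment ℝ (crd b).toAffineMap (0 : V) a
      simpa [hca] using this
    rw [Set.image_add, h1]
  rw [himage, volume_image_crd, volume_image_crd] at key
  have hval : ‖a‖ * ((crd b x).2 - (crd b y).2) = inner ℝ n (x - y) := by
    rw [crd_apply, crd_apply, hb1]
    simp only [inner_smul_left, inner_sub_right, conj_trivial]
    field_simp
  rw [hval] at key
  exact key

end Plane

end SanSym
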