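/-
MP_72c0ec_gt (Santalo's shadow perimeter inequality), helper9: a planar convex body containing a
(possibly degenerate) parallelogram has at least half the sum of the areas of the two circumscribed
side times width rectangles.
-/
import Pool.Agent.H.MP_72c0ec_gt.Sym.Seg

set_option autoImplicit false

open MeasureTheory Set
open scoped Pointwise ENNReal

namespace SanSym

variable {V : Type*} [NormedAddCommGroup V] [InnerProductSpace ℝ V] [FiniteDimensional ℝ V]
  [MeasurableSpace V] [BorelSpace V]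

theorem isCompact_seg (a : V) : IsCompact (segment ℝ (0 : V) a) := by
  rw [segment_eq_image_lineMap]
  exact isCompact_Icc.image AffineMap.lineMap_continuous

/-- Real-valued form of `seg_plane`. -/
theorem seg_plane_real (hV : Module.finrank ℝ V = 2) {Q : Set V} (hQc : IsCompact Q)
    (hQ : Convex ℝ Q) {a n x y : V} (han : inner ℝ a n = 0) (hn : ‖n‖ = ‖a‖)
    (hx : x ∈ Q) (hy : y ∈ Q) :
    (volume Q).toReal + inner ℝ n (x - y) ≤ (volume (Q + segment ℝ (0 : V) a)).toReal := by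
  have h := seg_plane hV hQc hQ han hn hx hy
  have hfin : volume (Q + segment ℝ (0 : V) a) ≠ ⊤ := (hQc.add (isCompact_seg a)).measure_ne_top
  have h2 := ENNReal.toReal_mono hfin h
  rw [ENNReal.toReal_add hQc.measure_ne_top ENNReal.ofReal_ne_top] at h2
  have h3 : (inner ℝ n (x - y) : ℝ) ≤ (ENNReal.ofReal (inner ℝ n (x - y))).toReal := by
    rw [ENNReal.toReal_ofReal']; exact le_max_left _ _
  linarith

/-- A planar compact convex set `Q` containing the parallelogram with vertices `x₀`, `x₀ + a`,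
`x₀ + b`, `x₀ + a + b` satisfies `⟪x - y, na⟫ + ⟪z - w, nb⟫ ≤ 2 area(Q)` for all `x, y, z, w ∈ Q`,
where `na`, `nb` are obtained from `a`, `b` by quarter turns. -/
theorem par_plane (hV : Module.finrank ℝ V = 2) {Q : Set V} (hQc : IsCompact Q)
    (hQ : Convex ℝ Q) {x₀ a b : V} (h00 : x₀ ∈ Q) (h10 : x₀ + a ∈ Q) (h01 : x₀ + b ∈ Q)
    (h11 : x₀ + a + b ∈ Q) {na nb x y z w : V} (hna : inner ℝ a na = 0) (hna' : ‖na‖ = ‖a‖)
    (hnb : inner ℝ b nb = 0) (hnb' : ‖nb‖ = ‖b‖)
    (hx : x ∈ Q) (hy : y ∈ Q) (hz : z ∈ Q) (hw : w ∈ Q) :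
    inner ℝ na (x - y) + inner ℝ nb (z - w) ≤ 2 * (volume Q).toReal := by
  set A : ℝ := (volume Q).toReal with hA
  have hA0 : 0 ≤ A := ENNReal.toReal_nonneg
  -- the parallelogram
  have hpar : ∀ s ∈ Icc (0:ℝ) 1, ∀ t ∈ Icc (0:ℝ) 1, x₀ + s • a + t • b ∈ Q := by
    intro s hs t ht
    have h1 : (1 - s) • x₀ + s • (x₀ + a) ∈ Q :=
      hQ h00 h10 (by linarith [hs.2]) hs.1 (by ring)
    have h2 : (1 - s) • (x₀ + b) + s • (x₀ + a + b) ∈ Q :=
      hQ h01 h11 (by linarith [hs.2]) hs.1 (by ring)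
    have h3 := hQ h1 h2 (a := 1 - t) (b := t) (by linarith [ht.2]) ht.1 (by ring)
    have h4 : (1 - t) • ((1 - s) • x₀ + s • (x₀ + a)) + t • ((1 - s) • (x₀ + b) +
        s • (x₀ + a + b)) = x₀ + s • a + t • b := by
      module
    rwa [h4] at h3
  have main : ∀ ε : ℝ, 0 < ε → inner ℝ na (x - y) + inner ℝ nb (z - w) ≤ (2 + ε) * A := by
    intro ε hε
    set Q1 : Set V := Q + segment ℝ (0 : V) (ε • a) with hQ1
    have hQ1c : IsCompact Q1 := hQc.add (isCompact_seg _)
    have hQ1v : Convex ℝ Q1 := hQ.add (convex_segment _ _)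
    have hQQ1 : Q ⊆ Q1 := by
      intro q hq
      exact ⟨q, hq, 0, left_mem_segment ℝ _ _, by simp⟩
    have hs1 := seg_plane_real hV hQc hQ (a := ε • a) (n := ε • na)
      (by rw [inner_smul_left, inner_smul_right, hna, mul_zero, mul_zero])
      (by rw [norm_smul, norm_smul, hna']) hx hy
    have hs2 := seg_plane_real hV hQ1c hQ1v (a := ε • b) (n := ε • nb)
      (by rw [inner_smul_left, inner_smul_right, hnb, mul_zero, mul_zero])
      (by rw [norm_smul, norm_smul, hnb']) (hQQ1 hz) (hQQ1 hw)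
    rw [inner_smul_left, conj_trivial] at hs1 hs2
    -- inclusion in a homothetic copy
    have hincl : Q1 + segment ℝ (0 : V) (ε • b) ⊆ (-(ε • x₀)) +ᵥ ((1 + ε) • Q) := by
      rintro _ ⟨_, ⟨q, hq, _, hu, rfl⟩, _, hv, rfl⟩
      rw [segment_eq_image_lineMap] at hu hv
      obtain ⟨s, hs, rfl⟩ := hu
      obtain ⟨t, ht, rfl⟩ := hv
      have hmem := hQ hq (hpar s hs t ht) (a := 1 / (1 + ε)) (b := ε / (1 + ε))
        (by positivity) (by positivity) (by field_simp)
      refine ⟨(1 + ε) • ((1 / (1 + ε)) • q + (ε / (1 + ε)) • (x₀ + s • a + t • b)),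
        ⟨_, hmem, rfl⟩, ?_⟩
      have h1 : (1 + ε) * (1 / (1 + ε)) = 1 := by field_simp
      have h2 : (1 + ε) * (ε / (1 + ε)) = ε := by field_simp
      simp only [AffineMap.lineMap_apply, vsub_eq_sub, sub_zero, vadd_eq_add, add_zero]
      rw [smul_add, smul_smul, smul_smul, h1, h2, one_smul]
      module
    have hvol : volume ((-(ε • x₀)) +ᵥ ((1 + ε) • Q)) = ENNReal.ofReal ((1 + ε) ^ 2) * volume Q := by
      rw [measure_vadd, Measure.addHaar_smul, hV, abs_of_nonneg (by positivity)]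
    have hle := measure_mono (μ := (volume : Measure V)) hincl
    rw [hvol] at hle
    have hle2 := ENNReal.toReal_mono
      (ENNReal.mul_ne_top ENNReal.ofReal_ne_top hQc.measure_ne_top) hle
    rw [ENNReal.toReal_mul, ENNReal.toReal_ofReal (by positivity)] at hle2
    have h5 : A + ε * inner ℝ na (x - y) + ε * inner ℝ nb (z - w) ≤ (1 + ε) ^ 2 * A := by
      linarith
    have h6 : ε * (inner ℝ na (x - y) + inner ℝ nb (z - w)) ≤ ε * ((2 + ε) * A) := by
      nlinarith
    exact le_of_mul_le_mul_left h6 hε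
  apply le_of_forall_pos_le_add
  intro δ hδ
  have h := main (δ / (A + 1)) (by positivity)
  have h2 : δ / (A + 1) * A ≤ δ := by
    rw [div_mul_eq_mul_div, div_le_iff₀ (by positivity)]
    nlinarith
  nlinarith

end SanSym
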