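/-
MP_72c0ec_gt (Santalo's shadow perimeter inequality), helper9: the integral over the unit sphere of
three-space of a positively homogeneous function of the projection to a plane.
-/
import Pool.Agent.H.MP_72c0ec_gt.Defs

set_option autoImplicit false

open MeasureTheory Set Real Metric
open scoped Pointwise ENNReal

namespace SanSym

open San

theorem radial_cubic : ∫ r in Ioi (0:ℝ), r ^ 2 * (r * exp (-r ^ 2)) = 1 / 2 := by
  have h := integral_rpow_mul_exp_neg_rpow (p := 2) (q := 3) (by norm_num) (by norm_num)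
  have hG : Gamma ((3 + 1) / 2) = 1 := by
    rw [show ((3:ℝ) + 1) / 2 = 2 by norm_num, Gamma_two]
  rw [hG] at h
  rw [show (1:ℝ) / 2 = 1 / 2 * 1 by norm_num, ← h]
  refine setIntegral_congr_fun measurableSet_Ioi (fun x hx => ?_)
  have hx0 : (0:ℝ) < x := hx
  rw [show (3:ℝ) = ((3:ℕ):ℝ) by norm_num, show (2:ℝ) = ((2:ℕ):ℝ) by norm_num, rpow_natCast,
    rpow_natCast]
  ring

theorem radial_square : ∫ r in Ioi (0:ℝ), r * (r * exp (-r ^ 2)) = √π / 4 := by
  have h := integral_rpow_mul_exp_neg_rpow (p := 2) (q := 2) (by norm_num) (by norm_num)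
  have hG : Gamma ((2 + 1) / 2) = √π / 2 := by
    rw [show ((2:ℝ) + 1) / 2 = 1 / 2 + 1 by norm_num, Gamma_add_one (by norm_num),
      Gamma_one_half_eq]
    ring
  rw [hG] at h
  rw [show √π / 4 = 1 / 2 * (√π / 2) by ring, ← h]
  refine setIntegral_congr_fun measurableSet_Ioi (fun x hx => ?_)
  have hx0 : (0:ℝ) < x := hx
  rw [show (2:ℝ) = ((2:ℕ):ℝ) by norm_num, rpow_natCast]
  ring

/-- The Gaussian integral of a positively homogeneous function in terms of its integral over the
unit sphere. -/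
theorem gauss_sphere (G : E3 → ℝ) (hG : ∀ (c : ℝ) (v : E3), 0 < c → G (c • v) = c * G v) :
    ∫ x : E3, exp (-‖x‖ ^ 2) * G x =
      (∫ u : sphere (0:E3) 1, G u ∂(volume : Measure E3).toSphere) * (1 / 2) := by
  have hdim : Module.finrank ℝ E3 = 3 := by simp
  calc ∫ x : E3, exp (-‖x‖ ^ 2) * G x
      = ∫ x : ({(0:E3)}ᶜ : Set E3), exp (-‖x.1‖ ^ 2) * G x.1
          ∂((volume : Measure E3).comap ((↑) : ({(0:E3)}ᶜ : Set E3) → E3)) := by
        rw [integral_subtype_comap (measurableSet_singleton _).compl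
          fun x : E3 => exp (-‖x‖ ^ 2) * G x, restrict_compl_singleton]
    _ = ∫ p : sphere (0:E3) 1 × Ioi (0:ℝ), G p.1 * (p.2.1 * exp (-p.2.1 ^ 2))
          ∂(volume : Measure E3).toSphere.prod (.volumeIoiPow (Module.finrank ℝ E3 - 1)) := by
        rw [← (volume : Measure E3).measurePreserving_homeomorphUnitSphereProd.integral_comp
          (Homeomorph.measurableEmbedding _)
          (fun p : sphere (0:E3) 1 × Ioi (0:ℝ) => G p.1 * (p.2.1 * exp (-p.2.1 ^ 2)))]
        refine integral_congr_ae (Filter.Eventually.of_forall fun x => ?_)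
        have hx : 0 < ‖x.1‖ := norm_pos_iff.mpr x.2
        simp only [homeomorphUnitSphereProd_apply_fst_coe, homeomorphUnitSphereProd_apply_snd_coe]
        rw [hG _ _ (inv_pos.mpr hx)]
        field_simp
    _ = (∫ u : sphere (0:E3) 1, G u ∂(volume : Measure E3).toSphere) *
          ∫ r : Ioi (0:ℝ), r.1 * exp (-r.1 ^ 2) ∂(.volumeIoiPow (Module.finrank ℝ E3 - 1)) :=
        integral_prod_mul (fun u : sphere (0:E3) 1 => G u)
          (fun r : Ioi (0:ℝ) => r.1 * exp (-r.1 ^ 2))
    _ = _ := by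
        congr 1
        rw [hdim]
        simp only [Measure.volumeIoiPow, ENNReal.ofReal]
        rw [integral_withDensity_eq_integral_smul,
          integral_subtype_comap measurableSet_Ioi
            fun a : ℝ => Real.toNNReal (a ^ (3 - 1)) • (a * exp (-a ^ 2)), ← radial_cubic]
        · refine setIntegral_congr_fun measurableSet_Ioi fun x hx => ?_
          rw [NNReal.smul_def, Real.coe_toNNReal _ (pow_nonneg (le_of_lt hx) _)]
          rfl
        · exact (measurable_subtype_coe.pow_const _).real_toNNReal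

/-- Coordinates in three-space with respect to an orthonormal basis, as a measurable equivalence
with `ℝ × (ℝ × ℝ)`; the third coordinate comes first. -/
noncomputable def crd3 (f : OrthonormalBasis (Fin 3) ℝ E3) : E3 ≃ᵐ ℝ × (ℝ × ℝ) :=
  ((f.repr.toHomeomorph.toMeasurableEquiv.trans
    (MeasurableEquiv.toLp 2 (Fin 3 → ℝ)).symm).trans
      (MeasurableEquiv.piFinSuccAbove (fun _ => ℝ) 2)).trans
        ((MeasurableEquiv.refl ℝ).prodCongr MeasurableEquiv.finTwoArrow)

theorem crd3_apply (f : OrthonormalBasis (Fin 3) ℝ E3) (x : E3) :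
    crd3 f x = (inner ℝ (f 2) x, (inner ℝ (f 0) x, inner ℝ (f 1) x)) := by
  show ((f.repr x) 2, ((f.repr x) 0, (f.repr x) 1)) = _
  rw [f.repr_apply_apply, f.repr_apply_apply, f.repr_apply_apply]

theorem crd3_mp (f : OrthonormalBasis (Fin 3) ℝ E3) :
    MeasurePreserving (crd3 f) volume volume := by
  have h1 : MeasurePreserving (f.repr : E3 → EuclideanSpace ℝ (Fin 3)) volume volume :=
    f.measurePreserving_repr
  have h2 : MeasurePreserving ((MeasurableEquiv.toLp 2 (Fin 3 → ℝ)).symm) volume volume :=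
    PiLp.volume_preserving_ofLp (Fin 3)
  have h3 : MeasurePreserving (MeasurableEquiv.piFinSuccAbove (fun _ : Fin 3 => ℝ) 2)
    volume volume := volume_preserving_piFinSuccAbove (fun _ => ℝ) 2
  have h4 : MeasurePreserving (Prod.map id MeasurableEquiv.finTwoArrow : ℝ × (Fin 2 → ℝ) → _)
    (volume.prod volume) (volume.prod volume) :=
    (MeasurePreserving.id volume).prod (volume_preserving_finTwoArrow ℝ)
  exact h4.comp (h3.comp (h2.comp h1))

/-- The Gaussian integral of a positively homogeneous function of the projection to a plane. -/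
theorem gauss_cyl (g : E3 → ℝ) (hg : ∀ (c : ℝ) (v : E3), 0 < c → g (c • v) = c * g v)
    (f : OrthonormalBasis (Fin 3) ℝ E3) (e₁ e₂ : E3) :
    ∫ x : E3, exp (-‖x‖ ^ 2) * g ((inner ℝ (f 0) x : ℝ) • e₁ + (inner ℝ (f 1) x : ℝ) • e₂) =
      √π * (√π / 4 * ∫ t in (0:ℝ)..(2 * π), g (cos t • e₁ + sin t • e₂)) := by
  have hnorm : ∀ x : E3, ‖x‖ ^ 2 = (inner ℝ (f 2) x : ℝ) ^ 2 + ((inner ℝ (f 0) x : ℝ) ^ 2 +
      (inner ℝ (f 1) x : ℝ) ^ 2) := by
    intro x
    have h := f.sum_sq_norm_inner_right x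
    rw [Fin.sum_univ_three] at h
    simp only [Real.norm_eq_abs, sq_abs] at h
    linarith
  calc ∫ x : E3, exp (-‖x‖ ^ 2) * g ((inner ℝ (f 0) x : ℝ) • e₁ + (inner ℝ (f 1) x : ℝ) • e₂)
      = ∫ p : ℝ × (ℝ × ℝ), exp (-p.1 ^ 2) * (exp (-(p.2.1 ^ 2 + p.2.2 ^ 2)) *
          g (p.2.1 • e₁ + p.2.2 • e₂)) := by
        rw [← (crd3_mp f).integral_comp (crd3 f).measurableEmbedding]
        refine integral_congr_ae (Filter.Eventually.of_forall fun x => ?_)
        simp only [crd3_apply]
        rw [hnorm x, ← mul_assoc, ← exp_add]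
        congr 2
        ring
    _ = (∫ t : ℝ, exp (-t ^ 2)) * ∫ q : ℝ × ℝ, exp (-(q.1 ^ 2 + q.2 ^ 2)) *
          g (q.1 • e₁ + q.2 • e₂) := by
        rw [Measure.volume_eq_prod ℝ (ℝ × ℝ)]
        exact integral_prod_mul (fun t : ℝ => exp (-t ^ 2))
          (fun q : ℝ × ℝ => exp (-(q.1 ^ 2 + q.2 ^ 2)) * g (q.1 • e₁ + q.2 • e₂))
    _ = _ := by
        congr 1
        · have := integral_gaussian 1
          simpa using this
        rw [← integral_comp_polarCoord_symm, polarCoord_target, Measure.volume_eq_prod]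
        have hcongr : ∫ p in Ioi (0:ℝ) ×ˢ Ioo (-π) π, p.1 •
            ((fun q : ℝ × ℝ => exp (-(q.1 ^ 2 + q.2 ^ 2)) * g (q.1 • e₁ + q.2 • e₂))
              (polarCoord.symm p)) ∂(volume.prod volume) =
            ∫ p in Ioi (0:ℝ) ×ˢ Ioo (-π) π, (p.1 * (p.1 * exp (-p.1 ^ 2))) *
              g (cos p.2 • e₁ + sin p.2 • e₂) ∂(volume.prod volume) := by
          refine setIntegral_congr_fun (measurableSet_Ioi.prod measurableSet_Ioo) ?_
          rintro ⟨r, t⟩ ⟨hr, ht⟩
          have hr0 : 0 < r := hr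
          simp only [polarCoord_symm_apply, smul_eq_mul]
          rw [mul_smul, mul_smul, ← smul_add, hg _ _ hr0]
          have h1 : (r * cos t) ^ 2 + (r * sin t) ^ 2 = r ^ 2 := by
            have := Real.cos_sq_add_sin_sq t
            nlinarith
          rw [h1]
          ring
        rw [hcongr, setIntegral_prod_mul (fun r : ℝ => r * (r * exp (-r ^ 2)))
          (fun t : ℝ => g (cos t • e₁ + sin t • e₂)), radial_square]
        congr 1
        have hper : Function.Periodic (fun t : ℝ => g (cos t • e₁ + sin t • e₂)) (2 * π) := by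
          intro t
          simp only [cos_add_two_pi, sin_add_two_pi]
        have h2 := hper.intervalIntegral_add_eq (-π) 0
        rw [zero_add, show -π + 2 * π = π by ring] at h2
        rw [← h2, intervalIntegral.integral_of_le (by linarith [pi_pos]),
          integral_Ioc_eq_integral_Ioo]

/-- The integral over the unit sphere of a positively homogeneous function of the projection to a
plane is `π / 2` times its integral over the unit circle. -/
theorem sphere_integral (g : E3 → ℝ) (hg : ∀ (c : ℝ) (v : E3), 0 < c → g (c • v) = c * g v)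
    (f : OrthonormalBasis (Fin 3) ℝ E3) (e₁ e₂ : E3) :
    ∫ u : sphere (0:E3) 1, g ((inner ℝ (f 0) (u : E3) : ℝ) • e₁ +
      (inner ℝ (f 1) (u : E3) : ℝ) • e₂) ∂(volume : Measure E3).toSphere =
      π / 2 * ∫ t in (0:ℝ)..(2 * π), g (cos t • e₁ + sin t • e₂) := by
  have h1 := gauss_sphere (fun x => g ((inner ℝ (f 0) x : ℝ) • e₁ + (inner ℝ (f 1) x : ℝ) • e₂))
    (by
      intro c v hc
      simp only [inner_smul_right]
      rw [mul_smul, mul_smul, ← smul_add, hg _ _ hc])
  have h2 := gauss_cyl g hg f e₁ e₂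
  rw [h1] at h2
  have h3 : √π * √π = π := Real.mul_self_sqrt pi_pos.le
  have h4 : √π * (√π / 4 * ∫ t in (0:ℝ)..(2 * π), g (cos t • e₁ + sin t • e₂)) =
      (√π * √π) / 4 * ∫ t in (0:ℝ)..(2 * π), g (cos t • e₁ + sin t • e₂) := by ring
  rw [h4, h3] at h2
  linarith

end SanSym
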