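/-
MP_72c0ec_gt (Santalo's shadow perimeter inequality), helper9: shadows, surface area by Cauchy's
formula, and the basic estimate for the area of one shadow.
-/
import Pool.Agent.H.MP_72c0ec_gt.Sym.Par
import Pool.Agent.H.MP_72c0ec_gt.Sym.Sphere

set_option autoImplicit false

open MeasureTheory Set Real Metric
open scoped Pointwise ENNReal RealInnerProductSpace

namespace SanSym

open San

/-- The shadow of `K` on the plane `u^⊥` through the origin: the image of `K` under the orthogonal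
projection onto `u^⊥`. -/
def shadow (K : Set E3) (u : E3) : Set ((ℝ ∙ u)ᗮ : Submodule ℝ E3) :=
  ((ℝ ∙ u)ᗮ).orthogonalProjectionOnto '' K

/-- The surface area of a convex body `K` of three-space by Cauchy's surface area formula:
`1 / π` times the integral, over the unit sphere, of the area of the shadow of `K` on the plane
orthogonal to `u`. -/
noncomputable def surfaceArea (K : Set E3) : ℝ :=
  1 / π * (∫⁻ u : sphere (0:E3) 1, volume (shadow K u) ∂(volume : Measure E3).toSphere).toReal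

instance fact_finrank : Fact (Module.finrank ℝ E3 = 2 + 1) := ⟨by simp⟩

theorem finrank_perp (u : sphere (0:E3) 1) :
    Module.finrank ℝ ((ℝ ∙ (u : E3))ᗮ : Submodule ℝ E3) = 2 :=
  Submodule.finrank_orthogonal_span_singleton (ne_zero_of_mem_unit_sphere u)

theorem shadow_compact {K : Set E3} (hK : IsCompact K) (u : E3) : IsCompact (shadow K u) :=
  hK.image (ContinuousLinearMap.continuous _)

theorem shadow_convex {K : Set E3} (hK : Convex ℝ K) (u : E3) : Convex ℝ (shadow K u) :=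
  hK.linear_image (((ℝ ∙ u)ᗮ).orthogonalProjectionOnto : E3 →ₗ[ℝ] ((ℝ ∙ u)ᗮ : Submodule ℝ E3))

theorem norm_proj_sq (u : sphere (0:E3) 1) (a : E3) :
    ‖((ℝ ∙ (u : E3))ᗮ).orthogonalProjectionOnto a‖ ^ 2 = ‖a‖ ^ 2 - (inner ℝ a (u : E3)) ^ 2 := by
  have hu : ‖(u : E3)‖ = 1 := norm_eq_of_mem_sphere u
  have h1 := Submodule.norm_sq_eq_add_norm_sq_projection a (ℝ ∙ (u : E3))
  have h2 : ‖(ℝ ∙ (u : E3)).orthogonalProjectionOnto a‖ ^ 2 = (inner ℝ a (u : E3)) ^ 2 := by
    have h3 : ((ℝ ∙ (u : E3)).orthogonalProjectionOnto a : E3) = (inner ℝ (u : E3) a : ℝ) • (u : E3) := by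
      rw [Submodule.coe_orthogonalProjectionOnto_apply]
      exact Submodule.starProjection_unit_singleton ℝ hu a
    have h4 : ‖(ℝ ∙ (u : E3)).orthogonalProjectionOnto a‖ =
      ‖((ℝ ∙ (u : E3)).orthogonalProjectionOnto a : E3)‖ := rfl
    rw [h4, h3, norm_smul, hu, mul_one, Real.norm_eq_abs, sq_abs, real_inner_comm]
  linarith

/-- The area of one shadow: if `K` contains a parallelogram with sides `a, b`, then twice the area
of the shadow on `u^⊥` is at least `⟪x - y, na⟫ + ⟪z - w, nb⟫` for `x, y, z, w ∈ K`, where `na` is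
orthogonal to `a` and `u` and has the length of the projection of `a`, and similarly for `nb`. -/
theorem par_shadow {K : Set E3} (hKc : IsCompact K) (hK : Convex ℝ K) (u : sphere (0:E3) 1)
    {x₀ a b : E3} (h00 : x₀ ∈ K) (h10 : x₀ + a ∈ K) (h01 : x₀ + b ∈ K) (h11 : x₀ + a + b ∈ K)
    {na nb x y z w : E3} (hau : inner ℝ na (u : E3) = 0) (haa : inner ℝ na a = 0)
    (han : ‖na‖ ^ 2 = ‖a‖ ^ 2 - (inner ℝ a (u : E3)) ^ 2)
    (hbu : inner ℝ nb (u : E3) = 0) (hbb : inner ℝ nb b = 0)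
    (hbn : ‖nb‖ ^ 2 = ‖b‖ ^ 2 - (inner ℝ b (u : E3)) ^ 2)
    (hx : x ∈ K) (hy : y ∈ K) (hz : z ∈ K) (hw : w ∈ K) :
    inner ℝ na (x - y) + inner ℝ nb (z - w) ≤ 2 * (volume (shadow K (u : E3))).toReal := by
  set P := ((ℝ ∙ (u : E3))ᗮ).orthogonalProjectionOnto with hP
  have hmemPerp : ∀ n : E3, inner ℝ n (u : E3) = 0 → n ∈ (ℝ ∙ (u : E3))ᗮ := by
    intro n hn
    rw [Submodule.mem_orthogonal_singleton_iff_inner_left]
    exact hn
  set na' : ((ℝ ∙ (u : E3))ᗮ : Submodule ℝ E3) := ⟨na, hmemPerp na hau⟩ with hna'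
  set nb' : ((ℝ ∙ (u : E3))ᗮ : Submodule ℝ E3) := ⟨nb, hmemPerp nb hbu⟩ with hnb'
  have hmem : ∀ v ∈ K, P v ∈ shadow K (u : E3) := fun v hv => ⟨v, hv, rfl⟩
  have hinner : ∀ (n : ((ℝ ∙ (u : E3))ᗮ : Submodule ℝ E3)) (v : E3),
      inner ℝ n (P v) = inner ℝ (n : E3) v :=
    fun n v => Submodule.inner_orthogonalProjectionOnto_eq_of_mem_left n v
  have hnorm : ∀ (n : ((ℝ ∙ (u : E3))ᗮ : Submodule ℝ E3)) (c : E3),
      ‖(n : E3)‖ ^ 2 = ‖c‖ ^ 2 - (inner ℝ c (u : E3)) ^ 2 → ‖n‖ = ‖P c‖ := by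
    intro n c h
    have h1 := norm_proj_sq u c
    have h2 : ‖n‖ ^ 2 = ‖P c‖ ^ 2 := by
      rw [hP, h1, ← h]; rfl
    exact (sq_eq_sq₀ (norm_nonneg _) (norm_nonneg _)).mp h2
  have key := par_plane (finrank_perp u) (shadow_compact hKc u) (shadow_convex hK u)
    (x₀ := P x₀) (a := P a) (b := P b) (na := na') (nb := nb')
    (hmem _ h00) (by rw [← map_add]; exact hmem _ h10) (by rw [← map_add]; exact hmem _ h01)
    (by rw [← map_add, ← map_add]; exact hmem _ h11)
    (by rw [real_inner_comm, hinner]; exact haa) (hnorm na' a han)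
    (by rw [real_inner_comm, hinner]; exact hbb) (hnorm nb' b hbn)
    (hmem _ hx) (hmem _ hy) (hmem _ hz) (hmem _ hw)
  rw [← map_sub, ← map_sub, hinner, hinner] at key
  exact key

/-! ### Support function of a compact set -/

theorem exists_supp {K : Set E3} (hK : IsCompact K) (hne : K.Nonempty) (v : E3) :
    ∃ x ∈ K, inner ℝ x v = supp K v ∧ ∀ y ∈ K, inner ℝ y v ≤ supp K v := by
  obtain ⟨x, hx, hmax⟩ := hK.exists_isMaxOn hne
    (f := fun x : E3 => (inner ℝ x v : ℝ)) (by fun_prop)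
  have hg : IsGreatest ((fun x : E3 => (inner ℝ x v : ℝ)) '' K) (inner ℝ x v) := by
    refine ⟨⟨x, hx, rfl⟩, ?_⟩
    rintro _ ⟨y, hy, rfl⟩
    exact hmax hy
  have h1 : supp K v = inner ℝ x v := hg.csSup_eq
  refine ⟨x, hx, h1.symm, fun y hy => ?_⟩
  rw [h1]
  exact hmax hy

theorem supp_smul {K : Set E3} (hK : IsCompact K) (hne : K.Nonempty) {c : ℝ} (hc : 0 ≤ c)
    (v : E3) : supp K (c • v) = c * supp K v := by
  obtain ⟨x, hx, hx1, hx2⟩ := exists_supp hK hne v
  obtain ⟨y, hy, hy1, hy2⟩ := exists_supp hK hne (c • v)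
  apply le_antisymm
  · rw [← hy1, inner_smul_right]
    exact mul_le_mul_of_nonneg_left (hx2 y hy) hc
  · rw [← hx1, ← inner_smul_right]
    exact hy2 x hx

theorem supp_lip {K : Set E3} (hK : IsCompact K) (hne : K.Nonempty) {R : ℝ}
    (hR : ∀ x ∈ K, ‖x‖ ≤ R) (v w : E3) : supp K v ≤ supp K w + R * ‖v - w‖ := by
  obtain ⟨x, hx, hx1, -⟩ := exists_supp hK hne v
  obtain ⟨y, hy, hy1, hy2⟩ := exists_supp hK hne w
  have h1 : (inner ℝ x v : ℝ) = inner ℝ x w + inner ℝ x (v - w) := by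
    rw [← inner_add_right]; congr 1; abel
  have h2 : (inner ℝ x (v - w) : ℝ) ≤ ‖x‖ * ‖v - w‖ := real_inner_le_norm _ _
  have h3 : ‖x‖ * ‖v - w‖ ≤ R * ‖v - w‖ := mul_le_mul_of_nonneg_right (hR x hx) (norm_nonneg _)
  have h4 := hy2 x hx
  linarith

theorem supp_continuous {K : Set E3} (hK : IsCompact K) (hne : K.Nonempty) :
    Continuous (supp K) := by
  obtain ⟨R, hR⟩ := hK.isBounded.exists_norm_le
  have hR0 : 0 ≤ R := by
    obtain ⟨x, hx⟩ := hne
    exact (norm_nonneg x).trans (hR x hx)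
  have : LipschitzWith (Real.toNNReal R) (supp K) := by
    refine LipschitzWith.of_le_add_mul _ fun v w => ?_
    rw [Real.coe_toNNReal _ hR0, dist_eq_norm]
    exact supp_lip hK hne hR v w
  exact this.continuous

theorem supp_add_neg_nonneg {K : Set E3} (hK : IsCompact K) (hne : K.Nonempty) (v : E3) :
    0 ≤ supp K v + supp K (-v) := by
  obtain ⟨x, hx, -, hx2⟩ := exists_supp hK hne v
  obtain ⟨y, hy, -, hy2⟩ := exists_supp hK hne (-v)
  have h1 := hx2 x hx
  have h2 := hy2 x hx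
  rw [inner_neg_right] at h2
  linarith

/-- The minimal shadow perimeter is at most every shadow perimeter. -/
theorem minShadow_le {K : Set E3} (hK : IsCompact K) (hne : K.Nonempty) {e₁ e₂ : E3}
    (h : Orthonormal ℝ ![e₁, e₂]) : minShadow K ≤ shadowPerimeter K e₁ e₂ := by
  obtain ⟨R, hR⟩ := hK.isBounded.exists_norm_le
  refine csInf_le ⟨-(R * (2 * π)), ?_⟩ ⟨e₁, e₂, h, rfl⟩
  rintro _ ⟨f₁, f₂, hf, rfl⟩
  have hcont : Continuous fun t : ℝ => supp K (cos t • f₁ + sin t • f₂) :=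
    (supp_continuous hK hne).comp (by fun_prop)
  have hunit : ∀ t : ℝ, ‖cos t • f₁ + sin t • f₂‖ = 1 := by
    intro t
    have h1 : ‖f₁‖ = 1 := hf.1 0
    have h2 : ‖f₂‖ = 1 := hf.1 1
    have h3 : (inner ℝ f₁ f₂ : ℝ) = 0 := hf.2 (i := 0) (j := 1) (by decide)
    have h4 : ‖cos t • f₁ + sin t • f₂‖ ^ 2 = 1 := by
      rw [norm_add_sq_real, norm_smul, norm_smul, h1, h2, inner_smul_left, inner_smul_right, h3,
        Real.norm_eq_abs, Real.norm_eq_abs, mul_one, mul_one, sq_abs, sq_abs]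
      have := cos_sq_add_sin_sq t
      linarith
    have h5 := norm_nonneg (cos t • f₁ + sin t • f₂)
    nlinarith
  have hlow : ∀ t : ℝ, -R ≤ supp K (cos t • f₁ + sin t • f₂) := by
    intro t
    obtain ⟨x, hx, hx1, -⟩ := exists_supp hK hne (cos t • f₁ + sin t • f₂)
    rw [← hx1]
    have h1 := abs_real_inner_le_norm x (cos t • f₁ + sin t • f₂)
    rw [hunit t, mul_one] at h1
    have h2 := hR x hx
    have h3 := neg_abs_le (inner ℝ x (cos t • f₁ + sin t • f₂) : ℝ)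
    linarith
  have h0 : (∫ _t in (0:ℝ)..(2 * π), -R) ≤ shadowPerimeter K f₁ f₂ :=
    intervalIntegral.integral_mono_on (by positivity) (by simp) (hcont.intervalIntegrable _ _)
      (fun t _ => hlow t)
  rw [intervalIntegral.integral_const, smul_eq_mul] at h0
  linarith

end SanSym
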