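/-
MP_72c0ec_gt (Santalo's shadow perimeter inequality), helper9: the surface area of a convex body
containing a parallelogram with sides `a, b` is at least `(|a| + |b|) / 2` times the minimal shadow
perimeter.
-/
import Pool.Agent.H.MP_72c0ec_gt.Sym.Area

set_option autoImplicit false

open MeasureTheory Set Real Metric
open scoped Pointwise ENNReal RealInnerProductSpace

namespace SanSym

open San

/-- Every vector is a nonnegative multiple of the last vector of an orthonormal basis. -/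
theorem exists_frame (a : E3) : ∃ f : OrthonormalBasis (Fin 3) ℝ E3, a = ‖a‖ • f 2 := by
  by_cases ha : a = 0
  · refine ⟨EuclideanSpace.basisFun (Fin 3) ℝ, ?_⟩
    rw [ha, norm_zero, zero_smul]
  have hpos : 0 < ‖a‖ := norm_pos_iff.mpr ha
  have hon : Orthonormal ℝ (({2} : Set (Fin 3)).domRestrict (fun _ : Fin 3 => ‖a‖⁻¹ • a)) := by
    constructor
    · intro i
      show ‖‖a‖⁻¹ • a‖ = 1
      rw [norm_smul, norm_inv, norm_norm]
      field_simp
    · intro i j hij
      exfalso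
      apply hij
      exact Subtype.ext (by
        have h1 : (i : Fin 3) = 2 := i.2
        have h2 : (j : Fin 3) = 2 := j.2
        rw [h1, h2])
  obtain ⟨f, hf⟩ := hon.exists_orthonormalBasis_extension_of_card_eq (by simp)
  refine ⟨f, ?_⟩
  rw [hf 2 rfl, smul_smul, mul_inv_cancel₀ hpos.ne', one_smul]

/-- The vector `c (⟪f 0, x⟫ e₁ + ⟪f 1, x⟫ e₂)`. -/
noncomputable def turn (f : OrthonormalBasis (Fin 3) ℝ E3) (c : ℝ) (e₁ e₂ : E3) (x : E3) : E3 :=
  c • ((inner ℝ (f 0) x : ℝ) • e₁ + (inner ℝ (f 1) x : ℝ) • e₂)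

theorem inner_f (f : OrthonormalBasis (Fin 3) ℝ E3) (i j : Fin 3) :
    (inner ℝ (f i) (f j) : ℝ) = if i = j then 1 else 0 :=
  orthonormal_iff_ite.mp f.orthonormal i j

/-- Properties of the quarter turn of the projection of `a = c (f 2)`. -/
theorem turn_props (f : OrthonormalBasis (Fin 3) ℝ E3) {a : E3} (ha : a = ‖a‖ • f 2)
    (u : sphere (0:E3) 1) :
    inner ℝ (turn f ‖a‖ (f 1) (-f 0) u) (u : E3) = 0 ∧
    inner ℝ (turn f ‖a‖ (f 1) (-f 0) u) a = 0 ∧
    ‖turn f ‖a‖ (f 1) (-f 0) u‖ ^ 2 = ‖a‖ ^ 2 - (inner ℝ a (u : E3)) ^ 2 := by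
  have hu : ‖(u : E3)‖ = 1 := norm_eq_of_mem_sphere u
  have h01 : (inner ℝ (f 0) (f 1) : ℝ) = 0 := by rw [inner_f]; simp
  have h10 : (inner ℝ (f 1) (f 0) : ℝ) = 0 := by rw [inner_f]; simp
  have h02 : (inner ℝ (f 0) (f 2) : ℝ) = 0 := by rw [inner_f]; simp
  have h12 : (inner ℝ (f 1) (f 2) : ℝ) = 0 := by rw [inner_f]; simp
  have h00 : (inner ℝ (f 0) (f 0) : ℝ) = 1 := by rw [inner_f]; simp
  have h11 : (inner ℝ (f 1) (f 1) : ℝ) = 1 := by rw [inner_f]; simp
  refine ⟨?_, ?_, ?_⟩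
  · rw [turn, inner_smul_left, inner_add_left, inner_smul_left, inner_smul_left, inner_neg_left]
    simp only [conj_trivial]
    ring
  · have h : (inner ℝ (turn f ‖a‖ (f 1) (-f 0) u) a : ℝ) =
        inner ℝ (turn f ‖a‖ (f 1) (-f 0) u) (‖a‖ • f 2) := by rw [← ha]
    rw [h, turn, inner_smul_left, inner_smul_right, inner_add_left, inner_smul_left,
      inner_smul_left, inner_neg_left, h12, h02]
    simp only [conj_trivial]
    ring
  · have hsum := f.sum_sq_norm_inner_right (u : E3)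
    rw [Fin.sum_univ_three, hu] at hsum
    simp only [Real.norm_eq_abs, sq_abs] at hsum
    have hau : (inner ℝ a (u : E3) : ℝ) = ‖a‖ * inner ℝ (f 2) (u : E3) := by
      conv_lhs => rw [ha]
      rw [inner_smul_left, conj_trivial]
    have h1 : ‖turn f ‖a‖ (f 1) (-f 0) u‖ ^ 2 = ‖a‖ ^ 2 * ((inner ℝ (f 0) (u : E3)) ^ 2 +
        (inner ℝ (f 1) (u : E3)) ^ 2) := by
      rw [turn, norm_smul, mul_pow, norm_norm, norm_add_sq_real, norm_smul, norm_smul, norm_neg,
        inner_smul_left, inner_smul_right, inner_neg_right, h10, f.norm_eq_one, f.norm_eq_one]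
      simp only [Real.norm_eq_abs, mul_one, sq_abs]
      ring
    rw [h1, hau]
    nlinarith

theorem turn_neg (f : OrthonormalBasis (Fin 3) ℝ E3) (c : ℝ) (e₁ e₂ x : E3) :
    -turn f c e₁ e₂ x = turn f c (-e₁) (-e₂) x := by
  rw [turn, turn]
  module

theorem supp_turn_integral {K : Set E3} (hK : IsCompact K) (hne : K.Nonempty)
    (f : OrthonormalBasis (Fin 3) ℝ E3) {c : ℝ} (hc : 0 ≤ c) (e₁ e₂ : E3) :
    ∫ u : sphere (0:E3) 1, supp K (turn f c e₁ e₂ u) ∂(volume : Measure E3).toSphere =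
      c * (π / 2 * shadowPerimeter K e₁ e₂) := by
  have h1 := sphere_integral (supp K) (fun t v ht => supp_smul hK hne ht.le v) f e₁ e₂
  rw [shadowPerimeter, ← h1, ← integral_const_mul]
  refine integral_congr_ae (Filter.Eventually.of_forall fun u => ?_)
  simp only [turn]
  rw [supp_smul hK hne hc]

theorem turn_continuous (f : OrthonormalBasis (Fin 3) ℝ E3) (c : ℝ) (e₁ e₂ : E3) :
    Continuous (turn f c e₁ e₂) := by
  unfold turn
  fun_prop

theorem supp_turn_integrable {K : Set E3} (hK : IsCompact K) (hne : K.Nonempty)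
    (f : OrthonormalBasis (Fin 3) ℝ E3) (c : ℝ) (e₁ e₂ : E3) :
    Integrable (fun u : sphere (0:E3) 1 => supp K (turn f c e₁ e₂ u))
      (volume : Measure E3).toSphere := by
  have hcont : Continuous fun u : sphere (0:E3) 1 => supp K (turn f c e₁ e₂ u) :=
    (supp_continuous hK hne).comp ((turn_continuous f c e₁ e₂).comp continuous_subtype_val)
  obtain ⟨C, hC⟩ := (isCompact_range hcont).isBounded.exists_norm_le
  refine Integrable.of_bound hcont.aestronglyMeasurable C (Filter.Eventually.of_forall fun u => ?_)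
  exact hC _ (mem_range_self u)

/-- The integral of shadow areas is finite. -/
theorem lintegral_shadow_ne_top {K : Set E3} (hK : IsCompact K) :
    ∫⁻ u : sphere (0:E3) 1, volume (shadow K u) ∂(volume : Measure E3).toSphere ≠ ⊤ := by
  obtain ⟨R, hR⟩ := hK.isBounded.exists_norm_le
  set C : ℝ≥0∞ := (ENNReal.ofReal R) ^ 2 * ENNReal.ofReal (√π ^ 2 / Gamma ((2:ℕ) / 2 + 1)) with hC
  have hle : ∀ u : sphere (0:E3) 1, volume (shadow K (u : E3)) ≤ C := by
    intro u
    have hfin := finrank_perp u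
    have : Nontrivial ((ℝ ∙ (u : E3))ᗮ : Submodule ℝ E3) :=
      Module.nontrivial_of_finrank_pos (R := ℝ) (by rw [hfin]; norm_num)
    have hsub : shadow K (u : E3) ⊆ closedBall 0 R := by
      rintro _ ⟨x, hx, rfl⟩
      rw [mem_closedBall_zero_iff]
      have h1 : ‖((ℝ ∙ (u : E3))ᗮ).orthogonalProjectionOnto x‖ ≤ ‖x‖ := by
        have h2 := norm_proj_sq u x
        have h3 : ‖((ℝ ∙ (u : E3))ᗮ).orthogonalProjectionOnto x‖ ^ 2 ≤ ‖x‖ ^ 2 := by
          rw [h2]; nlinarith [sq_nonneg (inner ℝ x (u : E3) : ℝ)]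
        exact (sq_le_sq₀ (norm_nonneg _) (norm_nonneg _)).mp h3
      exact h1.trans (hR x hx)
    have h2 := measure_mono (μ := (volume : Measure ((ℝ ∙ (u : E3))ᗮ : Submodule ℝ E3))) hsub
    rw [InnerProductSpace.volume_closedBall, hfin] at h2
    exact h2
  have hCtop : C ≠ ⊤ := by
    rw [hC]
    exact ENNReal.mul_ne_top (ENNReal.pow_ne_top ENNReal.ofReal_ne_top) ENNReal.ofReal_ne_top
  have h1 : ∫⁻ u : sphere (0:E3) 1, volume (shadow K u) ∂(volume : Measure E3).toSphere ≤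
      ∫⁻ _u : sphere (0:E3) 1, C ∂(volume : Measure E3).toSphere := lintegral_mono hle
  rw [lintegral_const] at h1
  exact ne_top_of_le_ne_top (ENNReal.mul_ne_top hCtop (measure_ne_top _ _)) h1

/-- Lower bounds for the surface area from pointwise lower bounds for the shadow areas. -/
theorem le_surfaceArea {K : Set E3} (hK : IsCompact K) {F : sphere (0:E3) 1 → ℝ}
    (hF : Integrable F (volume : Measure E3).toSphere)
    (hF0 : ∀ u, 0 ≤ F u) (hle : ∀ u, F u ≤ (volume (shadow K (u : E3))).toReal) :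
    1 / π * ∫ u, F u ∂(volume : Measure E3).toSphere ≤ surfaceArea K := by
  unfold surfaceArea
  refine mul_le_mul_of_nonneg_left ?_ (by positivity)
  rw [← ENNReal.ofReal_le_iff_le_toReal (lintegral_shadow_ne_top hK),
    ofReal_integral_eq_lintegral_ofReal hF (Filter.Eventually.of_forall hF0)]
  refine lintegral_mono fun u => ?_
  rw [ENNReal.ofReal_le_iff_le_toReal (shadow_compact hK u).measure_ne_top]
  exact hle u

theorem orthonormal_pair {e₁ e₂ : E3} (h1 : ‖e₁‖ = 1) (h2 : ‖e₂‖ = 1)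
    (h : inner ℝ e₁ e₂ = (0:ℝ)) : Orthonormal ℝ ![e₁, e₂] := by
  constructor
  · intro i
    fin_cases i
    · exact h1
    · exact h2
  · intro i j hij
    fin_cases i <;> fin_cases j
    · exact absurd rfl hij
    · exact h
    · show inner ℝ e₂ e₁ = (0:ℝ)
      rw [real_inner_comm]; exact h
    · exact absurd rfl hij

/-- If a convex body `K` contains the parallelogram with vertices `x₀, x₀ + a, x₀ + b, x₀ + a + b`
then its surface area is at least `(‖a‖ + ‖b‖) / 2` times the minimal shadow perimeter. -/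
theorem par_bound {K : Set E3} (hKc : IsCompact K) (hK : Convex ℝ K)
    {x₀ a b : E3} (h00 : x₀ ∈ K) (h10 : x₀ + a ∈ K) (h01 : x₀ + b ∈ K) (h11 : x₀ + a + b ∈ K) :
    (‖a‖ + ‖b‖) / 2 * minShadow K ≤ surfaceArea K := by
  have hne : K.Nonempty := ⟨x₀, h00⟩
  obtain ⟨f, hf⟩ := exists_frame a
  obtain ⟨g, hg⟩ := exists_frame b
  set A1 : sphere (0:E3) 1 → ℝ := fun u => supp K (turn f ‖a‖ (f 1) (-f 0) u) with hA1
  set A2 : sphere (0:E3) 1 → ℝ := fun u => supp K (turn f ‖a‖ (-f 1) (- -f 0) u) with hA2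
  set B1 : sphere (0:E3) 1 → ℝ := fun u => supp K (turn g ‖b‖ (g 1) (-g 0) u) with hB1
  set B2 : sphere (0:E3) 1 → ℝ := fun u => supp K (turn g ‖b‖ (-g 1) (- -g 0) u) with hB2
  have iA1 : Integrable A1 (volume : Measure E3).toSphere := supp_turn_integrable hKc hne f _ _ _
  have iA2 : Integrable A2 (volume : Measure E3).toSphere := supp_turn_integrable hKc hne f _ _ _
  have iB1 : Integrable B1 (volume : Measure E3).toSphere := supp_turn_integrable hKc hne g _ _ _
  have iB2 : Integrable B2 (volume : Measure E3).toSphere := supp_turn_integrable hKc hne g _ _ _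
  have hint : Integrable (fun u => (A1 u + A2 u + (B1 u + B2 u)) / 2)
      (volume : Measure E3).toSphere := ((iA1.add iA2).add (iB1.add iB2)).div_const 2
  have hnn : ∀ u, 0 ≤ (A1 u + A2 u + (B1 u + B2 u)) / 2 := by
    intro u
    have h1 := supp_add_neg_nonneg hKc hne (turn f ‖a‖ (f 1) (-f 0) u)
    have h2 := supp_add_neg_nonneg hKc hne (turn g ‖b‖ (g 1) (-g 0) u)
    rw [turn_neg] at h1 h2
    simp only [hA1, hA2, hB1, hB2]
    linarith
  have hle : ∀ u : sphere (0:E3) 1, (A1 u + A2 u + (B1 u + B2 u)) / 2 ≤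
      (volume (shadow K (u : E3))).toReal := by
    intro u
    obtain ⟨p1, p2, p3⟩ := turn_props f hf u
    obtain ⟨q1, q2, q3⟩ := turn_props g hg u
    obtain ⟨x, hx, hx1, -⟩ := exists_supp hKc hne (turn f ‖a‖ (f 1) (-f 0) u)
    obtain ⟨y, hy, hy1, -⟩ := exists_supp hKc hne (turn f ‖a‖ (-f 1) (- -f 0) u)
    obtain ⟨z, hz, hz1, -⟩ := exists_supp hKc hne (turn g ‖b‖ (g 1) (-g 0) u)
    obtain ⟨w, hw, hw1, -⟩ := exists_supp hKc hne (turn g ‖b‖ (-g 1) (- -g 0) u)
    have key := par_shadow hKc hK u h00 h10 h01 h11 p1 p2 p3 q1 q2 q3 hx hy hz hw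
    rw [inner_sub_right, inner_sub_right] at key
    rw [← turn_neg, inner_neg_right] at hy1 hw1
    rw [real_inner_comm] at hx1 hy1 hz1 hw1
    simp only [hA1, hA2, hB1, hB2]
    rw [turn_neg] at hy1 hw1
    linarith
  have h := le_surfaceArea hKc hint hnn hle
  refine le_trans ?_ h
  have hI : ∫ u, (A1 u + A2 u + (B1 u + B2 u)) ∂(volume : Measure E3).toSphere =
      (∫ u, A1 u ∂(volume : Measure E3).toSphere + ∫ u, A2 u ∂(volume : Measure E3).toSphere) +
      (∫ u, B1 u ∂(volume : Measure E3).toSphere + ∫ u, B2 u ∂(volume : Measure E3).toSphere) := by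
    rw [← integral_add iA1 iA2, ← integral_add iB1 iB2]
    exact integral_add (iA1.add iA2) (iB1.add iB2)
  rw [integral_div, hI]
  have n0 : ∀ (k : OrthonormalBasis (Fin 3) ℝ E3), ‖k 0‖ = 1 := fun k => k.norm_eq_one 0
  have n1 : ∀ (k : OrthonormalBasis (Fin 3) ℝ E3), ‖k 1‖ = 1 := fun k => k.norm_eq_one 1
  have n10 : ∀ (k : OrthonormalBasis (Fin 3) ℝ E3), (inner ℝ (k 1) (k 0) : ℝ) = 0 := by
    intro k; rw [inner_f]; simp
  have o1 : ∀ k : OrthonormalBasis (Fin 3) ℝ E3, Orthonormal ℝ ![k 1, -k 0] := fun k =>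
    orthonormal_pair (n1 k) (by rw [norm_neg]; exact n0 k) (by rw [inner_neg_right, n10, neg_zero])
  have o2 : ∀ k : OrthonormalBasis (Fin 3) ℝ E3, Orthonormal ℝ ![-k 1, - -k 0] := fun k =>
    orthonormal_pair (by rw [norm_neg]; exact n1 k) (by rw [neg_neg]; exact n0 k)
      (by rw [neg_neg, inner_neg_left, n10, neg_zero])
  have jA1 : ∫ u, A1 u ∂(volume : Measure E3).toSphere = _ :=
    supp_turn_integral hKc hne f (norm_nonneg a) (f 1) (-f 0)
  have jA2 : ∫ u, A2 u ∂(volume : Measure E3).toSphere = _ :=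
    supp_turn_integral hKc hne f (norm_nonneg a) (-f 1) (- -f 0)
  have jB1 : ∫ u, B1 u ∂(volume : Measure E3).toSphere = _ :=
    supp_turn_integral hKc hne g (norm_nonneg b) (g 1) (-g 0)
  have jB2 : ∫ u, B2 u ∂(volume : Measure E3).toSphere = _ :=
    supp_turn_integral hKc hne g (norm_nonneg b) (-g 1) (- -g 0)
  rw [jA1, jA2, jB1, jB2]
  have m1 := minShadow_le hKc hne (o1 f)
  have m2 := minShadow_le hKc hne (o2 f)
  have m3 := minShadow_le hKc hne (o1 g)
  have m4 := minShadow_le hKc hne (o2 g)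
  have ha := norm_nonneg a
  have hb := norm_nonneg b
  have e1 := mul_le_mul_of_nonneg_left m1 ha
  have e2 := mul_le_mul_of_nonneg_left m2 ha
  have e3 := mul_le_mul_of_nonneg_left m3 hb
  have e4 := mul_le_mul_of_nonneg_left m4 hb
  have hpi : 0 < π := pi_pos
  have e5 : 1 / π * ((‖a‖ * (π / 2 * shadowPerimeter K (f 1) (-f 0)) +
      ‖a‖ * (π / 2 * shadowPerimeter K (-f 1) (- -f 0)) +
      (‖b‖ * (π / 2 * shadowPerimeter K (g 1) (-g 0)) +
        ‖b‖ * (π / 2 * shadowPerimeter K (-g 1) (- -g 0)))) / 2) =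
      (‖a‖ * shadowPerimeter K (f 1) (-f 0) + ‖a‖ * shadowPerimeter K (-f 1) (- -f 0) +
        (‖b‖ * shadowPerimeter K (g 1) (-g 0) + ‖b‖ * shadowPerimeter K (-g 1) (- -g 0))) / 4 := by
    field_simp
    ring
  rw [e5]
  linarith

end SanSym
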