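/-
MP_72c0ec_gt (Santalo's shadow perimeter inequality), helper9: every shadow of a centrally symmetric
convex body contained in a ball of radius `R` has area at least `√2 (m² / π² - 2 R²)`, where `m` is the
minimal shadow perimeter (an octagon with vertices in the shadow).
-/
import Pool.Agent.H.MP_72c0ec_gt.Sym.Bound

set_option autoImplicit false

open MeasureTheory Set Real Metric
open scoped Pointwise ENNReal RealInnerProductSpace

namespace SanSym

open San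

/-- A continuous function takes a value at least its mean over `[0, 2π]`. -/
theorem exists_ge_mean {g : ℝ → ℝ} (hg : Continuous g) :
    ∃ t : ℝ, ∫ s in (0:ℝ)..(2 * π), g s ≤ 2 * π * g t := by
  have hpi : (0:ℝ) ≤ 2 * π := by positivity
  obtain ⟨t, -, hmax⟩ := (isCompact_Icc (a := (0:ℝ)) (b := 2 * π)).exists_isMaxOn
    (nonempty_Icc.mpr hpi) hg.continuousOn
  refine ⟨t, ?_⟩
  have h1 : ∫ s in (0:ℝ)..(2 * π), g s ≤ ∫ _s in (0:ℝ)..(2 * π), g t :=
    intervalIntegral.integral_mono_on hpi (hg.intervalIntegrable _ _) (by simp)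
      (fun s hs => hmax hs)
  rw [intervalIntegral.integral_const, smul_eq_mul, sub_zero] at h1
  exact h1

theorem integral_shift {g : ℝ → ℝ} (hper : Function.Periodic g (2 * π)) (s : ℝ) :
    ∫ t in (0:ℝ)..(2 * π), g (t + s) = ∫ t in (0:ℝ)..(2 * π), g t := by
  rw [intervalIntegral.integral_comp_add_right]
  have h := hper.intervalIntegral_add_eq s 0
  rw [zero_add] at h
  rw [zero_add, ← h]
  congr 1
  ring

/-- The algebraic identity behind the octagon estimate. -/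
theorem octagon_algebra {p₀ q₀ p₁ q₁ p₂ q₂ p₃ q₃ c R H T : ℝ} (hc : c ^ 2 = 1 / 2)
    (h0 : p₀ ^ 2 + q₀ ^ 2 ≤ R ^ 2) (h1 : p₁ ^ 2 + q₁ ^ 2 ≤ R ^ 2)
    (h2 : p₂ ^ 2 + q₂ ^ 2 ≤ R ^ 2) (h3 : p₃ ^ 2 + q₃ ^ 2 ≤ R ^ 2)
    (hH : H = p₀ + c * (p₁ + q₁) + q₂ + c * (-p₃ + q₃))
    (hT : T = -(q₀ + q₂) * p₃ + (p₀ + p₂) * q₃ - (q₀ - q₂) * p₁ + (p₀ - p₂) * q₁) :
    H ^ 2 / 2 - 4 * R ^ 2 ≤ 2 * c * T := by
  have key : 2 * c * T + (p₀ ^ 2 + q₀ ^ 2) + (p₁ ^ 2 + q₁ ^ 2) + (p₂ ^ 2 + q₂ ^ 2) +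
      (p₃ ^ 2 + q₃ ^ 2) - H ^ 2 / 2 =
      ((q₀ - p₂ + c * (-p₁ + q₁ - p₃ - q₃)) ^ 2 + (q₀ + p₂ + c * (-p₃ + q₃ - p₁ - q₁)) ^ 2 +
        (c * (-p₁ + q₁ + p₃ + q₃) + (p₀ - q₂)) ^ 2) / 2 := by
    rw [hT, hH]
    linear_combination (-(1/2) * ((p₁ + q₁ - p₃ + q₃) ^ 2 + (-p₁ + q₁ - p₃ - q₃) ^ 2 +
      (-p₃ + q₃ - p₁ - q₁) ^ 2 + (-p₁ + q₁ + p₃ + q₃) ^ 2)) * hc
  nlinarith [sq_nonneg (q₀ - p₂ + c * (-p₁ + q₁ - p₃ - q₃)),
    sq_nonneg (q₀ + p₂ + c * (-p₃ + q₃ - p₁ - q₁)),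
    sq_nonneg (c * (-p₁ + q₁ + p₃ + q₃) + (p₀ - q₂))]

/-- Unit vector of the plane spanned by `f 0, f 1`. -/
noncomputable def dir (f : OrthonormalBasis (Fin 3) ℝ E3) (t : ℝ) : E3 :=
  cos t • f 0 + sin t • f 1

/-- Its quarter turn. -/
noncomputable def dir' (f : OrthonormalBasis (Fin 3) ℝ E3) (t : ℝ) : E3 :=
  (-sin t) • f 0 + cos t • f 1

theorem dir_quarter (f : OrthonormalBasis (Fin 3) ℝ E3) (t : ℝ) :
    dir f (t + π / 2) = dir' f t := by
  rw [dir, dir', cos_add_pi_div_two, sin_add_pi_div_two]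

theorem dir_eighth (f : OrthonormalBasis (Fin 3) ℝ E3) (t : ℝ) :
    dir f (t + π / 4) = (√2 / 2) • (dir f t + dir' f t) := by
  rw [dir, dir, dir', cos_add, sin_add, cos_pi_div_four, sin_pi_div_four]
  module

theorem dir_three (f : OrthonormalBasis (Fin 3) ℝ E3) (t : ℝ) :
    dir f (t + 3 * (π / 4)) = (√2 / 2) • (-dir f t + dir' f t) := by
  have h : t + 3 * (π / 4) = (t + π / 2) + π / 4 := by ring
  rw [h, dir_eighth, dir_quarter]
  have h2 : dir' f (t + π / 2) = -dir f t := by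
    rw [dir', dir, cos_add_pi_div_two, sin_add_pi_div_two]
    module
  rw [h2]
  module

theorem dir_props (f : OrthonormalBasis (Fin 3) ℝ E3) (t : ℝ) :
    (inner ℝ (dir f t) (dir f t) : ℝ) = 1 ∧ (inner ℝ (dir' f t) (dir' f t) : ℝ) = 1 ∧
    (inner ℝ (dir f t) (dir' f t) : ℝ) = 0 ∧ (inner ℝ (dir f t) (f 2) : ℝ) = 0 ∧
    (inner ℝ (dir' f t) (f 2) : ℝ) = 0 := by
  have h01 : (inner ℝ (f 0) (f 1) : ℝ) = 0 := by rw [inner_f]; simp
  have h10 : (inner ℝ (f 1) (f 0) : ℝ) = 0 := by rw [inner_f]; simp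
  have h02 : (inner ℝ (f 0) (f 2) : ℝ) = 0 := by rw [inner_f]; simp
  have h12 : (inner ℝ (f 1) (f 2) : ℝ) = 0 := by rw [inner_f]; simp
  have h00 : (inner ℝ (f 0) (f 0) : ℝ) = 1 := by rw [inner_f]; simp
  have h11 : (inner ℝ (f 1) (f 1) : ℝ) = 1 := by rw [inner_f]; simp
  have hcs := cos_sq_add_sin_sq t
  refine ⟨?_, ?_, ?_, ?_, ?_⟩ <;>
  · simp only [dir, dir', inner_add_left, inner_add_right, inner_smul_left, inner_smul_right,
      h01, h10, h02, h12, h00, h11, conj_trivial]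
    linarith

/-- Parseval in the rotated frame. -/
theorem dir_parseval (f : OrthonormalBasis (Fin 3) ℝ E3) (t : ℝ) (v : E3) :
    (inner ℝ v (dir f t) : ℝ) ^ 2 + (inner ℝ v (dir' f t) : ℝ) ^ 2 =
      ‖v‖ ^ 2 - (inner ℝ v (f 2) : ℝ) ^ 2 := by
  have hsum := f.sum_sq_norm_inner_left v
  rw [Fin.sum_univ_three] at hsum
  simp only [Real.norm_eq_abs, sq_abs] at hsum
  have hcs := cos_sq_add_sin_sq t
  have h1 : (inner ℝ v (dir f t) : ℝ) = cos t * inner ℝ v (f 0) + sin t * inner ℝ v (f 1) := by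
    simp only [dir, inner_add_right, inner_smul_right]
  have h2 : (inner ℝ v (dir' f t) : ℝ) = -sin t * inner ℝ v (f 0) + cos t * inner ℝ v (f 1) := by
    simp only [dir', inner_add_right, inner_smul_right]
  rw [h1, h2, ← hsum]
  linear_combination ((inner ℝ v (f 0) : ℝ) ^ 2 + (inner ℝ v (f 1) : ℝ) ^ 2) * hcs

/-- The quarter turn of the projection of `a` to the plane. -/
noncomputable def jt (f : OrthonormalBasis (Fin 3) ℝ E3) (t : ℝ) (a : E3) : E3 :=
  (-(inner ℝ a (dir' f t) : ℝ)) • dir f t + (inner ℝ a (dir f t) : ℝ) • dir' f t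

theorem jt_props (f : OrthonormalBasis (Fin 3) ℝ E3) (t : ℝ) (a : E3) :
    (inner ℝ (jt f t a) (f 2) : ℝ) = 0 ∧ (inner ℝ (jt f t a) a : ℝ) = 0 ∧
    ‖jt f t a‖ ^ 2 = ‖a‖ ^ 2 - (inner ℝ a (f 2) : ℝ) ^ 2 := by
  obtain ⟨p1, p2, p3, p4, p5⟩ := dir_props f t
  have p3' : (inner ℝ (dir' f t) (dir f t) : ℝ) = 0 := by rw [real_inner_comm]; exact p3
  refine ⟨?_, ?_, ?_⟩
  · simp only [jt, inner_add_left, inner_smul_left, p4, p5, mul_zero, add_zero]
  · simp only [jt, inner_add_left, inner_smul_left, conj_trivial]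
    rw [real_inner_comm a (dir f t), real_inner_comm a (dir' f t)]
    ring
  · rw [← dir_parseval f t a, ← real_inner_self_eq_norm_sq]
    simp only [jt, inner_add_left, inner_add_right, inner_smul_left, inner_smul_right,
      conj_trivial, p1, p2, p3, p3']
    ring

theorem inner_jt (f : OrthonormalBasis (Fin 3) ℝ E3) (t : ℝ) (a v : E3) :
    (inner ℝ (jt f t a) v : ℝ) = -(inner ℝ a (dir' f t) : ℝ) * inner ℝ v (dir f t) +
      (inner ℝ a (dir f t) : ℝ) * inner ℝ v (dir' f t) := by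
  simp only [jt, inner_add_left, inner_smul_left, conj_trivial]
  rw [real_inner_comm v (dir f t), real_inner_comm v (dir' f t)]

theorem zero_mem_of_symm {K : Set E3} (hK : Convex ℝ K) (hne : K.Nonempty)
    (hsym : ∀ x ∈ K, -x ∈ K) : (0 : E3) ∈ K := by
  obtain ⟨x, hx⟩ := hne
  have h := hK hx (hsym x hx) (a := 1 / 2) (b := 1 / 2) (by norm_num) (by norm_num) (by norm_num)
  have h2 : (1 / 2 : ℝ) • x + (1 / 2 : ℝ) • (-x) = 0 := by module
  rwa [h2] at h

/-- Every shadow of a centrally symmetric convex body contained in the ball of radius `R` has area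
at least `√2 (m² / π² - 2 R²)`. -/
theorem octagon_bound {K : Set E3} (hKc : IsCompact K) (hK : Convex ℝ K) (hne : K.Nonempty)
    (hsym : ∀ x ∈ K, -x ∈ K) {R m : ℝ} (hR : ∀ x ∈ K, ‖x‖ ≤ R) (hm0 : 0 ≤ m)
    (hm : m ≤ minShadow K) (u : sphere (0:E3) 1) :
    √2 * (m ^ 2 / π ^ 2 - 2 * R ^ 2) ≤ (volume (shadow K (u : E3))).toReal := by
  have hpi : 0 < π := pi_pos
  obtain ⟨f, hf⟩ := exists_frame (u : E3)
  have hu : ‖(u : E3)‖ = 1 := norm_eq_of_mem_sphere u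
  rw [hu, one_smul] at hf
  have h10 : (inner ℝ (f 0) (f 1) : ℝ) = 0 := by rw [inner_f]; simp
  have hL : m ≤ shadowPerimeter K (f 0) (f 1) :=
    hm.trans (minShadow_le hKc hne (orthonormal_pair (f.norm_eq_one 0) (f.norm_eq_one 1) h10))
  -- the support function on the circle
  set h : ℝ → ℝ := fun t => supp K (dir f t) with hh
  have hcont : Continuous h := by
    refine (supp_continuous hKc hne).comp ?_
    unfold dir
    fun_prop
  have hper : Function.Periodic h (2 * π) := by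
    intro t
    simp only [hh, dir, cos_add_two_pi, sin_add_two_pi]
  have hint : ∫ t in (0:ℝ)..(2 * π), h t = shadowPerimeter K (f 0) (f 1) := rfl
  set g : ℝ → ℝ := fun t => h t + h (t + π / 4) + (h (t + π / 2) + h (t + 3 * (π / 4))) with hg
  have hc1 : ∀ s : ℝ, Continuous fun t => h (t + s) := fun s => hcont.comp (by fun_prop)
  have hgc : Continuous g := by
    simp only [hg]
    exact (hcont.add (hc1 _)).add ((hc1 _).add (hc1 _))
  obtain ⟨t, ht⟩ := exists_ge_mean hgc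
  have hgi : ∫ t in (0:ℝ)..(2 * π), g t = 4 * shadowPerimeter K (f 0) (f 1) := by
    simp only [hg]
    have ii : ∀ s : ℝ, IntervalIntegrable (fun t => h (t + s)) volume 0 (2 * π) :=
      fun s => (hc1 s).intervalIntegrable _ _
    have ii0 : IntervalIntegrable h volume 0 (2 * π) := hcont.intervalIntegrable _ _
    rw [intervalIntegral.integral_add (ii0.add (ii _)) ((ii _).add (ii _)),
      intervalIntegral.integral_add ii0 (ii _), intervalIntegral.integral_add (ii _) (ii _),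
      integral_shift hper, integral_shift hper, integral_shift hper, hint]
    ring
  rw [hgi] at ht
  have hH : 2 * m / π ≤ g t := by
    rw [div_le_iff₀ hpi]
    nlinarith
  -- the four extreme points
  obtain ⟨x0, hx0, hx0', -⟩ := exists_supp hKc hne (dir f t)
  obtain ⟨x1, hx1, hx1', -⟩ := exists_supp hKc hne (dir f (t + π / 4))
  obtain ⟨x2, hx2, hx2', -⟩ := exists_supp hKc hne (dir f (t + π / 2))
  obtain ⟨x3, hx3, hx3', -⟩ := exists_supp hKc hne (dir f (t + 3 * (π / 4)))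
  have hgt : g t = inner ℝ x0 (dir f t) + inner ℝ x1 (dir f (t + π / 4)) +
      (inner ℝ x2 (dir f (t + π / 2)) + inner ℝ x3 (dir f (t + 3 * (π / 4)))) := by
    rw [hx0', hx1', hx2', hx3']
  rw [dir_eighth, dir_quarter, dir_three] at hgt
  simp only [inner_smul_right, inner_add_right, inner_neg_right] at hgt
  obtain ⟨a1, a2, a3⟩ := jt_props f t (x0 + x2)
  obtain ⟨b1, b2, b3⟩ := jt_props f t (x0 - x2)
  rw [← hf] at a1 a3 b1 b3
  have key := par_shadow hKc hK u (x₀ := -x0) (a := x0 + x2) (b := x0 - x2)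
    (hsym _ hx0) (by rw [neg_add_cancel_left]; exact hx2)
    (by rw [show -x0 + (x0 - x2) = -x2 by abel]; exact hsym _ hx2)
    (by rw [show -x0 + (x0 + x2) + (x0 - x2) = x0 by abel]; exact hx0)
    a1 a2 a3 b1 b2 b3 hx3 (hsym _ hx3) hx1 (hsym _ hx1)
  rw [show x3 - -x3 = (2:ℝ) • x3 by module, show x1 - -x1 = (2:ℝ) • x1 by module,
    inner_smul_right, inner_smul_right, inner_jt, inner_jt] at key
  simp only [inner_add_left, inner_sub_left] at key
  have hbd : ∀ v ∈ K, (inner ℝ v (dir f t) : ℝ) ^ 2 + (inner ℝ v (dir' f t) : ℝ) ^ 2 ≤ R ^ 2 := by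
    intro v hv
    rw [dir_parseval f t v]
    have h1 : ‖v‖ ^ 2 ≤ R ^ 2 := pow_le_pow_left₀ (norm_nonneg v) (hR v hv) 2
    nlinarith [sq_nonneg (inner ℝ v (f 2) : ℝ)]
  have hs2 : (√2 / 2) ^ 2 = 1 / 2 := by
    rw [div_pow, Real.sq_sqrt (by norm_num)]; norm_num
  have alg := octagon_algebra (H := g t) hs2 (hbd x0 hx0) (hbd x1 hx1) (hbd x2 hx2) (hbd x3 hx3)
    (by rw [hgt]; ring) rfl
  have hA0 : 0 < √2 := by positivity
  have hsq : √2 * √2 = 2 := Real.mul_self_sqrt (by norm_num)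
  set A : ℝ := (volume (shadow K (u : E3))).toReal with hA
  have hgt2 : (2 * m / π) ^ 2 ≤ (g t) ^ 2 := pow_le_pow_left₀ (by positivity) hH 2
  have hexp : (2 * m / π) ^ 2 = 4 * (m ^ 2 / π ^ 2) := by ring
  rw [hexp] at hgt2
  have h3 : 2 * (m ^ 2 / π ^ 2) - 4 * R ^ 2 ≤ √2 * A := by
    have h4 : 2 * (√2 / 2) * (-(inner ℝ x0 (dir' f t) + inner ℝ x2 (dir' f t)) * inner ℝ x3 (dir f t) +
      (inner ℝ x0 (dir f t) + inner ℝ x2 (dir f t)) * inner ℝ x3 (dir' f t) -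
      (inner ℝ x0 (dir' f t) - inner ℝ x2 (dir' f t)) * inner ℝ x1 (dir f t) +
      (inner ℝ x0 (dir f t) - inner ℝ x2 (dir f t)) * inner ℝ x1 (dir' f t)) ≤ √2 * A := by
      rw [show 2 * (√2 / 2) = √2 by ring]
      refine mul_le_mul_of_nonneg_left ?_ hA0.le
      linarith
    linarith
  have h5 : √2 * (2 * (m ^ 2 / π ^ 2) - 4 * R ^ 2) ≤ √2 * (√2 * A) :=
    mul_le_mul_of_nonneg_left h3 hA0.le
  rw [← mul_assoc, hsq] at h5
  linarith

end SanSym
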