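/-
MP_72c0ec_gt (Santalo's shadow perimeter inequality), helper9: the inequality for centrally symmetric
convex bodies.
-/
import Pool.Agent.H.MP_72c0ec_gt.Sym.Oct

set_option autoImplicit false

open MeasureTheory Set Real Metric
open scoped Pointwise ENNReal RealInnerProductSpace

namespace SanSym

open San

/-- The total measure of the unit sphere is `4π`. -/
theorem sphere_total : ((volume : Measure E3).toSphere).real univ = 4 * π := by
  rw [Measure.toSphere_real_apply_univ]
  have h1 : Module.finrank ℝ E3 = 3 := by simp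
  have h2 : (volume : Measure E3).real (ball 0 1) = π * 4 / 3 := by
    rw [Measure.real, EuclideanSpace.volume_ball_fin_three]
    simp only [ENNReal.ofReal_one, one_pow, one_mul]
    rw [ENNReal.toReal_ofReal (by positivity)]
  rw [h1, h2]
  push_cast
  ring

/-- A constant lower bound for the shadow areas. -/
theorem const_le_surfaceArea {K : Set E3} (hK : IsCompact K) {F : ℝ} (hF0 : 0 ≤ F)
    (hle : ∀ u : sphere (0:E3) 1, F ≤ (volume (shadow K (u : E3))).toReal) :
    4 * F ≤ surfaceArea K := by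
  have h := le_surfaceArea hK (F := fun _ => F) (integrable_const F) (fun _ => hF0) hle
  rw [integral_const, sphere_total, smul_eq_mul] at h
  have hpi : 0 < π := pi_pos
  have h2 : 1 / π * (4 * π * F) = 4 * F := by field_simp
  rw [h2] at h
  exact h

theorem minShadow_nonneg {K : Set E3} (hK : IsCompact K) (h0 : (0:E3) ∈ K) : 0 ≤ minShadow K := by
  refine Real.sInf_nonneg ?_
  rintro _ ⟨e₁, e₂, -, rfl⟩
  refine intervalIntegral.integral_nonneg (by positivity) (fun t _ => ?_)
  obtain ⟨x, -, -, hx2⟩ := exists_supp hK ⟨0, h0⟩ (cos t • e₁ + sin t • e₂)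
  have := hx2 0 h0
  rwa [inner_zero_left] at this

/-- First estimate for a symmetric body: `S ≥ m N` with `N² ≥ R² + m² / (4π²)`. -/
theorem first_bound {K : Set E3} (hKc : IsCompact K) (hK : Convex ℝ K)
    (hsym : ∀ x ∈ K, -x ∈ K) {p : E3} (hp : p ∈ K) (hm : 0 < minShadow K) :
    minShadow K ^ 2 * (‖p‖ ^ 2 + minShadow K ^ 2 / (4 * π ^ 2)) ≤ surfaceArea K ^ 2 ∧
      0 < surfaceArea K := by
  have hne : K.Nonempty := ⟨p, hp⟩
  have hpi : 0 < π := pi_pos
  set m := minShadow K with hmdef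
  obtain ⟨f, hf⟩ := exists_frame p
  have h10 : (inner ℝ (f 0) (f 1) : ℝ) = 0 := by rw [inner_f]; simp
  have hL : m ≤ shadowPerimeter K (f 0) (f 1) :=
    minShadow_le hKc hne (orthonormal_pair (f.norm_eq_one 0) (f.norm_eq_one 1) h10)
  have hcont : Continuous fun t => supp K (dir f t) := by
    refine (supp_continuous hKc hne).comp ?_
    unfold dir
    fun_prop
  obtain ⟨t, ht⟩ := exists_ge_mean hcont
  have hint : ∫ t in (0:ℝ)..(2 * π), supp K (dir f t) = shadowPerimeter K (f 0) (f 1) := rfl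
  rw [hint] at ht
  obtain ⟨q, hq, hq1, -⟩ := exists_supp hKc hne (dir f t)
  set e := dir f t with he
  set h := supp K e with hh
  have hh0 : 0 < h := by
    have : 0 < 2 * π * h := lt_of_lt_of_le hm (hL.trans ht)
    exact pos_of_mul_pos_right this (by positivity)
  have hhm : m / (2 * π) ≤ h := by
    rw [div_le_iff₀ (by positivity)]; linarith
  obtain ⟨d1, -, -, d4, -⟩ := dir_props f t
  have hpe : (inner ℝ p e : ℝ) = 0 := by
    rw [hf, inner_smul_left, real_inner_comm, d4, mul_zero]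
  have hee : ‖e‖ ^ 2 = 1 := by rw [← real_inner_self_eq_norm_sq]; exact d1
  have key := par_bound hKc hK (x₀ := -p) (a := p + q) (b := p - q)
    (hsym _ hp) (by rw [neg_add_cancel_left]; exact hq)
    (by rw [show -p + (p - q) = -q by abel]; exact hsym _ hq)
    (by rw [show -p + (p + q) + (p - q) = p by abel]; exact hp)
  set N := √(‖p‖ ^ 2 + h ^ 2) with hN
  have hNsq : N ^ 2 = ‖p‖ ^ 2 + h ^ 2 := Real.sq_sqrt (by positivity)
  have hNpos : 0 < N := Real.sqrt_pos.mpr (by positivity)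
  have n1 : ‖p + h • e‖ = N := by
    have : ‖p + h • e‖ ^ 2 = N ^ 2 := by
      rw [norm_add_sq_real, inner_smul_right, hpe, norm_smul, mul_pow, hee, hNsq,
        Real.norm_eq_abs, sq_abs]
      ring
    exact (sq_eq_sq₀ (norm_nonneg _) hNpos.le).mp this
  have n2 : ‖p - h • e‖ = N := by
    have : ‖p - h • e‖ ^ 2 = N ^ 2 := by
      rw [norm_sub_sq_real, inner_smul_right, hpe, norm_smul, mul_pow, hee, hNsq,
        Real.norm_eq_abs, sq_abs]
      ring
    exact (sq_eq_sq₀ (norm_nonneg _) hNpos.le).mp this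
  have i1 := real_inner_le_norm (p + q) (p + h • e)
  have i2 := real_inner_le_norm (p - q) (p - h • e)
  rw [n1] at i1
  rw [n2] at i2
  have hqp : (inner ℝ q p : ℝ) = inner ℝ p q := real_inner_comm _ _
  have hsum : (inner ℝ (p + q) (p + h • e) : ℝ) + inner ℝ (p - q) (p - h • e) = 2 * N ^ 2 := by
    simp only [inner_add_left, inner_add_right, inner_sub_left, inner_sub_right,
      inner_smul_right, hpe, hq1]
    rw [real_inner_self_eq_norm_sq, hNsq]
    ring
  have hge : 2 * N ≤ ‖p + q‖ + ‖p - q‖ := by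
    have h1 : 2 * N * N ≤ (‖p + q‖ + ‖p - q‖) * N := by nlinarith
    exact le_of_mul_le_mul_right h1 hNpos
  have hS : N * m ≤ surfaceArea K := by
    have h1 : N * m ≤ (‖p + q‖ + ‖p - q‖) / 2 * m :=
      mul_le_mul_of_nonneg_right (by linarith) hm.le
    exact h1.trans key
  have hNm : 0 < N * m := mul_pos hNpos hm
  refine ⟨?_, lt_of_lt_of_le hNm hS⟩
  have h1 : (N * m) ^ 2 ≤ surfaceArea K ^ 2 := pow_le_pow_left₀ hNm.le hS 2
  have h2 : (m / (2 * π)) ^ 2 ≤ h ^ 2 := pow_le_pow_left₀ (by positivity) hhm 2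
  have h3 : m ^ 2 / (4 * π ^ 2) = (m / (2 * π)) ^ 2 := by ring
  calc m ^ 2 * (‖p‖ ^ 2 + m ^ 2 / (4 * π ^ 2)) ≤ m ^ 2 * N ^ 2 := by
        refine mul_le_mul_of_nonneg_left ?_ (by positivity)
        rw [h3, hNsq]; linarith
    _ = (N * m) ^ 2 := by ring
    _ ≤ _ := h1

/-- The minimal shadow perimeter of a symmetric body with interior points is positive. -/
theorem minShadow_pos {K : Set E3} (hKc : IsCompact K) (hK : Convex ℝ K)
    (hint : (interior K).Nonempty) (hsym : ∀ x ∈ K, -x ∈ K) : 0 < minShadow K := by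
  obtain ⟨c, hc⟩ := hint
  obtain ⟨r, hr, hball⟩ := Metric.isOpen_iff.mp isOpen_interior c hc
  have hmem : ∀ w : E3, ‖w‖ < r → w ∈ K := by
    intro w hw
    have h1 : c + w ∈ K := interior_subset (hball (by
      rw [mem_ball, dist_eq_norm, add_sub_cancel_left]; exact hw))
    have h2 : c - w ∈ K := interior_subset (hball (by
      rw [mem_ball, dist_eq_norm, show c - w - c = -w by abel, norm_neg]; exact hw))
    have h3 := hK h1 (hsym _ h2) (a := 1 / 2) (b := 1 / 2) (by norm_num) (by norm_num)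
      (by norm_num)
    have h4 : (1 / 2 : ℝ) • (c + w) + (1 / 2 : ℝ) • (-(c - w)) = w := by module
    rwa [h4] at h3
  have hne : K.Nonempty := ⟨0, hmem 0 (by rw [norm_zero]; exact hr)⟩
  have hbound : ∀ L ∈ {L | ∃ e₁ e₂ : E3, Orthonormal ℝ ![e₁, e₂] ∧ L = shadowPerimeter K e₁ e₂},
      r * π ≤ L := by
    rintro _ ⟨e₁, e₂, ho, rfl⟩
    have hcont : Continuous fun t : ℝ => supp K (cos t • e₁ + sin t • e₂) :=
      (supp_continuous hKc hne).comp (by fun_prop)
    have hlow : ∀ t : ℝ, r / 2 ≤ supp K (cos t • e₁ + sin t • e₂) := by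
      intro t
      have h1 : ‖e₁‖ = 1 := ho.1 0
      have h2 : ‖e₂‖ = 1 := ho.1 1
      have h3 : (inner ℝ e₁ e₂ : ℝ) = 0 := ho.2 (i := 0) (j := 1) (by decide)
      have h4 : ‖cos t • e₁ + sin t • e₂‖ ^ 2 = 1 := by
        rw [norm_add_sq_real, norm_smul, norm_smul, h1, h2, inner_smul_left, inner_smul_right, h3,
          Real.norm_eq_abs, Real.norm_eq_abs, mul_one, mul_one, sq_abs, sq_abs]
        have := cos_sq_add_sin_sq t
        linarith
      have h5 : ‖cos t • e₁ + sin t • e₂‖ = 1 := by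
        have h6 := norm_nonneg (cos t • e₁ + sin t • e₂)
        nlinarith
      obtain ⟨x, -, -, hx2⟩ := exists_supp hKc hne (cos t • e₁ + sin t • e₂)
      have h7 := hx2 ((r / 2) • (cos t • e₁ + sin t • e₂)) (hmem _ (by
        rw [norm_smul, h5, mul_one, Real.norm_eq_abs, abs_of_pos (by positivity)]; linarith))
      rw [inner_smul_left, conj_trivial, real_inner_self_eq_norm_sq, h4, mul_one] at h7
      exact h7
    have h0 : (∫ _t in (0:ℝ)..(2 * π), r / 2) ≤ shadowPerimeter K e₁ e₂ :=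
      intervalIntegral.integral_mono_on (by positivity) (by simp) (hcont.intervalIntegrable _ _)
        (fun t _ => hlow t)
    rw [intervalIntegral.integral_const, smul_eq_mul] at h0
    linarith
  have hset : {L | ∃ e₁ e₂ : E3, Orthonormal ℝ ![e₁, e₂] ∧
      L = shadowPerimeter K e₁ e₂}.Nonempty := by
    set f := EuclideanSpace.basisFun (Fin 3) ℝ
    have h10 : (inner ℝ (f 0) (f 1) : ℝ) = 0 := by rw [inner_f]; simp
    exact ⟨_, f 0, f 1, orthonormal_pair (f.norm_eq_one 0) (f.norm_eq_one 1) h10, rfl⟩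
  have h8 : r * π ≤ minShadow K := le_csInf hset hbound
  have h9 : 0 < r * π := mul_pos hr pi_pos
  linarith

/-- The inequality for bodies symmetric about the origin. -/
theorem symm_main {K : Set E3} (hKc : IsCompact K) (hK : Convex ℝ K)
    (hint : (interior K).Nonempty) (hsym : ∀ x ∈ K, -x ∈ K) :
    minShadow K ^ 2 ≤ 213 / 50 * surfaceArea K ∧ 0 < surfaceArea K := by
  have hne : K.Nonempty := hint.mono interior_subset
  have hm : 0 < minShadow K := minShadow_pos hKc hK hint hsym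
  have hpi : 0 < π := pi_pos
  have hpi2 : π < 3.1416 := pi_lt_d4
  obtain ⟨p, hp, hmax⟩ := hKc.exists_isMaxOn hne (f := fun x : E3 => ‖x‖) (by fun_prop)
  have hR : ∀ x ∈ K, ‖x‖ ≤ ‖p‖ := fun x hx => hmax hx
  obtain ⟨h1, hS⟩ := first_bound hKc hK hsym hp hm
  refine ⟨?_, hS⟩
  set m := minShadow K with hmdef
  set S := surfaceArea K with hSdef
  set y := m / π with hy
  have hy0 : 0 < y := div_pos hm hpi
  have hmy : m = π * y := by rw [hy]; field_simp
  have hpisq : π ^ 2 < 9.87 := by nlinarith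
  rcases le_total (0.2945 * y ^ 2) (‖p‖ ^ 2) with hc | hc
  · -- far point
    have h2 : m ^ 2 / (4 * π ^ 2) = y ^ 2 / 4 := by rw [hmy]; field_simp
    rw [h2] at h1
    have h3 : (0.5445 : ℝ) * y ^ 2 ≤ ‖p‖ ^ 2 + y ^ 2 / 4 := by linarith
    have h4 : m ^ 2 * (0.5445 * y ^ 2) ≤ S ^ 2 :=
      (mul_le_mul_of_nonneg_left h3 (by positivity)).trans h1
    have h5 : (m ^ 2) ^ 2 ≤ (213 / 50 * S) ^ 2 := by
      have h6 : (m ^ 2) ^ 2 = π ^ 2 * (m ^ 2 * y ^ 2) := by rw [hmy]; ring
      have h7 : 0 < m ^ 2 * y ^ 2 := by positivity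
      rw [h6]
      nlinarith
    exact (sq_le_sq₀ (by positivity) (by positivity)).mp h5
  · -- all points are close
    have hoct := octagon_bound hKc hK hne hsym hR hm.le le_rfl
    have h2 : m ^ 2 / π ^ 2 = y ^ 2 := by rw [hmy]; field_simp
    have hs2 : (1.414 : ℝ) ≤ √2 := by
      rw [show (1.414 : ℝ) = √(1.414 ^ 2) by rw [Real.sqrt_sq (by norm_num)]]
      exact Real.sqrt_le_sqrt (by norm_num)
    have hF0 : 0 ≤ √2 * (y ^ 2 - 2 * ‖p‖ ^ 2) :=
      mul_nonneg (by positivity) (by nlinarith)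
    have h3 : ∀ u : sphere (0:E3) 1, √2 * (y ^ 2 - 2 * ‖p‖ ^ 2) ≤
        (volume (shadow K (u : E3))).toReal := by
      intro u
      have := hoct u
      rwa [h2] at this
    have h4 := const_le_surfaceArea hKc hF0 h3
    have h5 : 0.411 * y ^ 2 ≤ y ^ 2 - 2 * ‖p‖ ^ 2 := by linarith
    have h6 : 1.414 * (0.411 * y ^ 2) ≤ √2 * (y ^ 2 - 2 * ‖p‖ ^ 2) :=
      mul_le_mul hs2 h5 (by positivity) (by positivity)
    have h7 : m ^ 2 = π ^ 2 * y ^ 2 := by rw [hmy]; ring
    rw [h7]
    have h8 : 0 < y ^ 2 := by positivity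
    nlinarith

end SanSym
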