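/-
MP_72c0ec_gt (Santalo's shadow perimeter inequality), helper9: invariance of the surface area and of
the minimal shadow perimeter under translations; the surface area of a ball.
-/
import Pool.Agent.H.MP_72c0ec_gt.Sym.Main

set_option autoImplicit false

open MeasureTheory Set Real Metric
open scoped Pointwise ENNReal RealInnerProductSpace

namespace SanSym

open San

theorem shadow_translate (K : Set E3) (p : E3) (u : sphere (0:E3) 1) :
    volume (shadow ((fun x => x - p) '' K) (u : E3)) = volume (shadow K (u : E3)) := by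
  set P := ((ℝ ∙ (u : E3))ᗮ).orthogonalProjectionOnto with hP
  have h : shadow ((fun x => x - p) '' K) (u : E3) = (-(P p)) +ᵥ shadow K (u : E3) := by
    ext y
    constructor
    · rintro ⟨_, ⟨x, hx, rfl⟩, rfl⟩
      refine ⟨P x, ⟨x, hx, rfl⟩, ?_⟩
      show -(P p) + P x = P (x - p)
      rw [map_sub]; abel
    · rintro ⟨_, ⟨x, hx, rfl⟩, rfl⟩
      refine ⟨x - p, ⟨x, hx, rfl⟩, ?_⟩
      show P (x - p) = -(P p) + P x
      rw [map_sub]; abel
  rw [h, measure_vadd]

theorem surfaceArea_translate (K : Set E3) (p : E3) :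
    surfaceArea ((fun x => x - p) '' K) = surfaceArea K := by
  unfold surfaceArea
  congr 2
  exact lintegral_congr fun u => shadow_translate K p u

theorem supp_translate {K : Set E3} (hK : IsCompact K) (hne : K.Nonempty) (p v : E3) :
    supp ((fun x => x - p) '' K) v = supp K v - inner ℝ p v := by
  obtain ⟨x, hx, hx1, hx2⟩ := exists_supp hK hne v
  have hg : IsGreatest ((fun y : E3 => (inner ℝ y v : ℝ)) '' ((fun x => x - p) '' K))
      (supp K v - inner ℝ p v) := by
    refine ⟨⟨x - p, ⟨x, hx, rfl⟩, ?_⟩, ?_⟩
    · simp only [inner_sub_left]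
      rw [hx1]
    · rintro _ ⟨_, ⟨y, hy, rfl⟩, rfl⟩
      simp only [inner_sub_left]
      have := hx2 y hy
      linarith
  exact hg.csSup_eq

theorem shadowPerimeter_translate {K : Set E3} (hK : IsCompact K) (hne : K.Nonempty) (p : E3)
    (e₁ e₂ : E3) :
    shadowPerimeter ((fun x => x - p) '' K) e₁ e₂ = shadowPerimeter K e₁ e₂ := by
  unfold shadowPerimeter
  have h1 : ∀ t : ℝ, supp ((fun x => x - p) '' K) (cos t • e₁ + sin t • e₂) =
      supp K (cos t • e₁ + sin t • e₂) - (cos t * inner ℝ p e₁ + sin t * inner ℝ p e₂) := by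
    intro t
    rw [supp_translate hK hne, inner_add_right, inner_smul_right, inner_smul_right]
  simp only [h1]
  have hcont : Continuous fun t : ℝ => supp K (cos t • e₁ + sin t • e₂) :=
    (supp_continuous hK hne).comp (by fun_prop)
  rw [intervalIntegral.integral_sub (hcont.intervalIntegrable _ _)
    (Continuous.intervalIntegrable (by fun_prop) _ _),
    intervalIntegral.integral_add (Continuous.intervalIntegrable (by fun_prop) _ _)
    (Continuous.intervalIntegrable (by fun_prop) _ _),
    intervalIntegral.integral_mul_const, intervalIntegral.integral_mul_const, integral_cos,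
    integral_sin]
  simp

theorem minShadow_translate {K : Set E3} (hK : IsCompact K) (hne : K.Nonempty) (p : E3) :
    minShadow ((fun x => x - p) '' K) = minShadow K := by
  unfold minShadow
  simp only [shadowPerimeter_translate hK hne]

/-- The surface area of a ball, as a check of the definition. -/
theorem surfaceArea_ball {r : ℝ} (hr : 0 ≤ r) :
    surfaceArea (closedBall (0:E3) r) = 4 * π * r ^ 2 := by
  have hpi : 0 < π := pi_pos
  have h : ∀ u : sphere (0:E3) 1, volume (shadow (closedBall (0:E3) r) (u : E3)) =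
      ENNReal.ofReal (π * r ^ 2) := by
    intro u
    have hfin := finrank_perp u
    have : Nontrivial ((ℝ ∙ (u : E3))ᗮ : Submodule ℝ E3) :=
      Module.nontrivial_of_finrank_pos (R := ℝ) (by rw [hfin]; norm_num)
    have hset : shadow (closedBall (0:E3) r) (u : E3) = closedBall 0 r := by
      ext y
      constructor
      · rintro ⟨x, hx, rfl⟩
        rw [mem_closedBall_zero_iff] at hx ⊢
        have h2 := norm_proj_sq u x
        have h3 : ‖((ℝ ∙ (u : E3))ᗮ).orthogonalProjectionOnto x‖ ^ 2 ≤ ‖x‖ ^ 2 := by
          rw [h2]; nlinarith [sq_nonneg (inner ℝ x (u : E3) : ℝ)]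
        exact ((sq_le_sq₀ (norm_nonneg _) (norm_nonneg _)).mp h3).trans hx
      · intro hy
        refine ⟨(y : E3), ?_, ?_⟩
        · rw [mem_closedBall_zero_iff] at hy ⊢
          exact hy
        · exact Submodule.orthogonalProjectionOnto_mem_subspace_eq_self y
    rw [hset, InnerProductSpace.volume_closedBall, hfin, ← ENNReal.ofReal_pow hr,
      ← ENNReal.ofReal_mul (by positivity)]
    congr 1
    rw [Real.sq_sqrt hpi.le]
    norm_num
    ring
  unfold surfaceArea
  rw [lintegral_congr h, lintegral_const, ENNReal.toReal_mul, ENNReal.toReal_ofReal (by positivity)]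
  have h2 := sphere_total
  rw [Measure.real] at h2
  rw [h2]
  field_simp

/-- The inequality for centrally symmetric bodies with an arbitrary centre. -/
theorem symm_result {K : Set E3} (hKc : IsCompact K) (hK : Convex ℝ K)
    (hint : (interior K).Nonempty) {p : E3} (hsym : ∀ x ∈ K, (2:ℝ) • p - x ∈ K) :
    minShadow K ^ 2 ≤ 213 / 50 * surfaceArea K ∧ 0 < surfaceArea K := by
  have hne : K.Nonempty := hint.mono interior_subset
  have h1 : IsCompact ((fun x => x - p) '' K) := hKc.image (by fun_prop)
  have heq : (fun x => x - p) '' K = (-p) +ᵥ K := by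
    ext y
    constructor
    · rintro ⟨x, hx, rfl⟩
      exact ⟨x, hx, by show -p + x = x - p; abel⟩
    · rintro ⟨x, hx, rfl⟩
      exact ⟨x, hx, by show x - p = -p + x; abel⟩
  have h2 : Convex ℝ ((fun x => x - p) '' K) := by
    rw [heq]
    exact hK.vadd _
  have h3 : (interior ((fun x => x - p) '' K)).Nonempty := by
    rw [heq, interior_vadd]
    obtain ⟨c, hc⟩ := hint
    exact ⟨_, ⟨c, hc, rfl⟩⟩
  have h4 : ∀ x ∈ (fun x => x - p) '' K, -x ∈ (fun x => x - p) '' K := by
    rintro _ ⟨x, hx, rfl⟩
    refine ⟨(2:ℝ) • p - x, hsym x hx, ?_⟩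
    simp only
    module
  have h5 := symm_main h1 h2 h3 h4
  rw [surfaceArea_translate, minShadow_translate hKc hne] at h5
  exact h5

end SanSym
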