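/-
MP_72c0ec_gt (Santalo's shadow perimeter inequality), helper9: the definition of the surface area used
in the statements, in coordinates.
-/
import Pool.Agent.H.MP_72c0ec_gt.Sym.Trans

set_option autoImplicit false

open MeasureTheory Set Real Metric
open scoped ENNReal RealInnerProductSpace

namespace SanSym

open San

/-- The shadow (orthogonal projection) of `K` on the plane spanned by the orthonormal vectors
`e₁, e₂`, in coordinates with respect to `e₁, e₂`. -/
def flatShadow (K : Set E3) (e₁ e₂ : E3) : Set (ℝ × ℝ) :=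
  (fun x : E3 => ((inner ℝ x e₁ : ℝ), (inner ℝ x e₂ : ℝ))) '' K

/-- The area of the shadow of `K` on the plane orthogonal to the unit vector `u`: the infimum over all
orthonormal bases `e₁, e₂` of this plane of the area of the shadow in coordinates (all these areas
are equal, see `shadowArea_eq_frame`). -/
noncomputable def shadowArea (K : Set E3) (u : E3) : ℝ≥0∞ :=
  ⨅ (e₁ : E3) (e₂ : E3) (_ : Orthonormal ℝ ![e₁, e₂, u]), volume (flatShadow K e₁ e₂)

/-- The surface measure of the unit sphere. -/
noncomputable def sphereMeasure : Measure (sphere (0:E3) 1) := (volume : Measure E3).toSphere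

/-- The surface area of a convex body `K` by Cauchy's formula: `1 / π` times the integral, over the
unit sphere, of the area of the shadow of `K` on the plane orthogonal to `u`. -/
noncomputable def cauchyArea (K : Set E3) : ℝ :=
  1 / π * (∫⁻ u, shadowArea K u ∂sphereMeasure).toReal

theorem volume_flatShadow (K : Set E3) (u : sphere (0:E3) 1) {e₁ e₂ : E3}
    (h : Orthonormal ℝ ![e₁, e₂, (u : E3)]) :
    volume (flatShadow K e₁ e₂) = volume (shadow K (u : E3)) := by
  have h1 : ‖e₁‖ = 1 := h.1 0
  have h2 : ‖e₂‖ = 1 := h.1 1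
  have h12 : (inner ℝ e₁ e₂ : ℝ) = 0 := h.2 (i := 0) (j := 1) (by decide)
  have h1u : (inner ℝ e₁ (u : E3) : ℝ) = 0 := h.2 (i := 0) (j := 2) (by decide)
  have h2u : (inner ℝ e₂ (u : E3) : ℝ) = 0 := h.2 (i := 1) (j := 2) (by decide)
  have hmem : ∀ n : E3, inner ℝ n (u : E3) = (0:ℝ) → n ∈ (ℝ ∙ (u : E3))ᗮ := by
    intro n hn
    rw [Submodule.mem_orthogonal_singleton_iff_inner_left]
    exact hn
  set v : Fin 2 → ((ℝ ∙ (u : E3))ᗮ : Submodule ℝ E3) :=
    ![⟨e₁, hmem e₁ h1u⟩, ⟨e₂, hmem e₂ h2u⟩] with hv
  have hon : Orthonormal ℝ v := by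
    constructor
    · intro i
      fin_cases i
      · exact h1
      · exact h2
    · intro i j hij
      fin_cases i <;> fin_cases j
      · exact absurd rfl hij
      · exact h12
      · show inner ℝ e₂ e₁ = (0:ℝ)
        rw [real_inner_comm]; exact h12
      · exact absurd rfl hij
  have hcard : Fintype.card (Fin 2) = Module.finrank ℝ ((ℝ ∙ (u : E3))ᗮ : Submodule ℝ E3) := by
    rw [finrank_perp u, Fintype.card_fin]
  have hspan : ⊤ ≤ Submodule.span ℝ (Set.range v) := by
    rw [hon.linearIndependent.span_eq_top_of_card_eq_finrank hcard]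
  set b : OrthonormalBasis (Fin 2) ℝ ((ℝ ∙ (u : E3))ᗮ : Submodule ℝ E3) :=
    OrthonormalBasis.mk hon hspan with hb
  have hb0 : b 0 = ⟨e₁, hmem e₁ h1u⟩ := by simp [hb, hv]
  have hb1 : b 1 = ⟨e₂, hmem e₂ h2u⟩ := by simp [hb, hv]
  have himg : flatShadow K e₁ e₂ = crd b '' (shadow K (u : E3)) := by
    unfold flatShadow shadow
    rw [image_image]
    refine image_congr fun x _ => ?_
    rw [crd_apply, hb0, hb1, Submodule.inner_orthogonalProjectionOnto_eq_of_mem_left,
      Submodule.inner_orthogonalProjectionOnto_eq_of_mem_left]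
    exact Prod.ext (real_inner_comm _ _) (real_inner_comm _ _)
  rw [himg, volume_image_crd]

theorem exists_triple (u : sphere (0:E3) 1) : ∃ e₁ e₂ : E3, Orthonormal ℝ ![e₁, e₂, (u : E3)] := by
  obtain ⟨f, hf⟩ := exists_frame (u : E3)
  have hu : ‖(u : E3)‖ = 1 := norm_eq_of_mem_sphere u
  rw [hu, one_smul] at hf
  refine ⟨f 0, f 1, ?_⟩
  have h : ![f 0, f 1, (u : E3)] = f := by
    rw [hf]
    funext i
    fin_cases i <;> rfl
  rw [h]
  exact f.orthonormal

theorem shadowArea_eq (K : Set E3) (u : sphere (0:E3) 1) :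
    shadowArea K (u : E3) = volume (shadow K (u : E3)) := by
  obtain ⟨e₁, e₂, he⟩ := exists_triple u
  apply le_antisymm
  · exact (iInf_le_of_le e₁ (iInf_le_of_le e₂ (iInf_le_of_le he le_rfl))).trans
      (volume_flatShadow K u he).le
  · refine le_iInf fun f₁ => le_iInf fun f₂ => le_iInf fun hf => ?_
    exact (volume_flatShadow K u hf).ge

/-- All orthonormal bases of the plane orthogonal to `u` give the same area of the shadow. -/
theorem shadowArea_eq_frame (K : Set E3) (u : sphere (0:E3) 1) {e₁ e₂ : E3}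
    (h : Orthonormal ℝ ![e₁, e₂, (u : E3)]) :
    shadowArea K (u : E3) = volume (flatShadow K e₁ e₂) := by
  rw [shadowArea_eq, volume_flatShadow K u h]

theorem cauchyArea_eq (K : Set E3) : cauchyArea K = surfaceArea K := by
  unfold cauchyArea surfaceArea sphereMeasure
  congr 2
  exact lintegral_congr fun u => shadowArea_eq K u

/-- Check of the definition: the surface area of a ball. -/
theorem cauchyArea_ball {r : ℝ} (hr : 0 ≤ r) :
    cauchyArea (closedBall (0:E3) r) = 4 * π * r ^ 2 := by
  rw [cauchyArea_eq]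
  exact surfaceArea_ball hr

end SanSym
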