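/-
MP_72c0ec_gt (Santalo's shadow perimeter inequality), helper9: the surface area of a convex body
containing a zonotope with generators `a i` is at least `(∑ ‖a i‖) / 2` times the minimal shadow
perimeter.
-/
import Pool.Agent.H.MP_72c0ec_gt.Sym.Surf

set_option autoImplicit false

open MeasureTheory Set Real Metric
open scoped Pointwise ENNReal RealInnerProductSpace

namespace SanSym

open San

section Plane

variable {V : Type*} [NormedAddCommGroup V] [InnerProductSpace ℝ V] [FiniteDimensional ℝ V]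
  [MeasurableSpace V] [BorelSpace V]

/-- The sum of `Q` with `k` segments. -/
def addSegs (Q : Set V) (a : ℕ → V) : ℕ → Set V
  | 0 => Q
  | k + 1 => addSegs Q a k + segment ℝ (0 : V) (a k)

theorem addSegs_props (hV : Module.finrank ℝ V = 2) {Q : Set V} (hQc : IsCompact Q)
    (hQ : Convex ℝ Q) {a nn x y : ℕ → V} (hn : ∀ i, inner ℝ (a i) (nn i) = (0:ℝ))
    (hn' : ∀ i, ‖nn i‖ = ‖a i‖) (hx : ∀ i, x i ∈ Q) (hy : ∀ i, y i ∈ Q) (k : ℕ) :
    IsCompact (addSegs Q a k) ∧ Convex ℝ (addSegs Q a k) ∧ Q ⊆ addSegs Q a k ∧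
    (volume Q).toReal + ∑ i ∈ Finset.range k, inner ℝ (nn i) (x i - y i) ≤
      (volume (addSegs Q a k)).toReal ∧
    ∀ z ∈ addSegs Q a k, ∃ q ∈ Q, ∃ t : ℕ → ℝ, (∀ i, t i ∈ Icc (0:ℝ) 1) ∧
      z = q + ∑ i ∈ Finset.range k, t i • a i := by
  induction k with
  | zero =>
    refine ⟨hQc, hQ, subset_rfl, by simp [addSegs], ?_⟩
    intro z hz
    exact ⟨z, hz, fun _ => 0, fun _ => ⟨le_rfl, zero_le_one⟩, by simp⟩
  | succ k ih =>
    obtain ⟨h1, h2, h3, h4, h5⟩ := ih
    have hsub : addSegs Q a k ⊆ addSegs Q a (k + 1) := by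
      intro q hq
      exact ⟨q, hq, 0, left_mem_segment ℝ _ _, by simp⟩
    refine ⟨h1.add (isCompact_seg _), h2.add (convex_segment _ _), h3.trans hsub, ?_, ?_⟩
    · have := seg_plane_real hV h1 h2 (hn k) (hn' k) (h3 (hx k)) (h3 (hy k))
      rw [Finset.sum_range_succ]
      show _ ≤ (volume (addSegs Q a k + segment ℝ (0 : V) (a k))).toReal
      linarith
    · rintro _ ⟨w, hw, v, hv, rfl⟩
      obtain ⟨q, hq, t, ht, rfl⟩ := h5 w hw
      rw [segment_eq_image_lineMap] at hv
      obtain ⟨s, hs, rfl⟩ := hv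
      refine ⟨q, hq, fun i => if i = k then s else t i, ?_, ?_⟩
      · intro i
        by_cases hi : i = k
        · simp only [hi, if_true]; exact hs
        · simp only [hi, if_false]; exact ht i
      · rw [Finset.sum_range_succ]
        beta_reduce
        rw [if_pos rfl]
        have hsum : ∑ i ∈ Finset.range k, (if i = k then s else t i) • a i =
            ∑ i ∈ Finset.range k, t i • a i := by
          refine Finset.sum_congr rfl fun i hi => ?_
          rw [if_neg (by rw [Finset.mem_range] at hi; omega)]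
        rw [hsum, AffineMap.lineMap_apply]
        simp only [vsub_eq_sub, sub_zero, vadd_eq_add, add_zero]
        abel

/-- A planar compact convex set `Q` containing the zonotope `x₀ + ∑ [0, a i]` satisfies
`∑ ⟪x i - y i, n i⟫ ≤ 2 area(Q)` for all `x i, y i ∈ Q`, where `n i` is a quarter turn of `a i`. -/
theorem zono_plane (hV : Module.finrank ℝ V = 2) {Q : Set V} (hQc : IsCompact Q)
    (hQ : Convex ℝ Q) {x₀ : V} {a nn x y : ℕ → V} {k : ℕ}
    (hZ : ∀ t : ℕ → ℝ, (∀ i, t i ∈ Icc (0:ℝ) 1) → x₀ + ∑ i ∈ Finset.range k, t i • a i ∈ Q)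
    (hn : ∀ i, inner ℝ (a i) (nn i) = (0:ℝ)) (hn' : ∀ i, ‖nn i‖ = ‖a i‖)
    (hx : ∀ i, x i ∈ Q) (hy : ∀ i, y i ∈ Q) :
    ∑ i ∈ Finset.range k, inner ℝ (nn i) (x i - y i) ≤ 2 * (volume Q).toReal := by
  set A : ℝ := (volume Q).toReal with hA
  have hA0 : 0 ≤ A := ENNReal.toReal_nonneg
  have main : ∀ ε : ℝ, 0 < ε →
      ∑ i ∈ Finset.range k, inner ℝ (nn i) (x i - y i) ≤ (2 + ε) * A := by
    intro ε hε
    obtain ⟨h1, h2, h3, h4, h5⟩ := addSegs_props hV hQc hQ (a := fun i => ε • a i)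
      (nn := fun i => ε • nn i) (x := x) (y := y)
      (fun i => by rw [inner_smul_left, inner_smul_right, hn, mul_zero, mul_zero])
      (fun i => by rw [norm_smul, norm_smul, hn']) hx hy k
    have hincl : addSegs Q (fun i => ε • a i) k ⊆ (-(ε • x₀)) +ᵥ ((1 + ε) • Q) := by
      intro z hz
      obtain ⟨q, hq, t, ht, rfl⟩ := h5 z hz
      have hmem := hQ hq (hZ t ht) (a := 1 / (1 + ε)) (b := ε / (1 + ε))
        (by positivity) (by positivity) (by field_simp)
      refine ⟨(1 + ε) • ((1 / (1 + ε)) • q + (ε / (1 + ε)) •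
        (x₀ + ∑ i ∈ Finset.range k, t i • a i)), ⟨_, hmem, rfl⟩, ?_⟩
      have e1 : (1 + ε) * (1 / (1 + ε)) = 1 := by field_simp
      have e2 : (1 + ε) * (ε / (1 + ε)) = ε := by field_simp
      have e3 : ∑ i ∈ Finset.range k, t i • ε • a i = ε • ∑ i ∈ Finset.range k, t i • a i := by
        rw [Finset.smul_sum]
        exact Finset.sum_congr rfl fun i _ => smul_comm _ _ _
      simp only [vadd_eq_add]
      rw [smul_add, smul_smul, smul_smul, e1, e2, one_smul, e3]
      module
    have hvol : volume ((-(ε • x₀)) +ᵥ ((1 + ε) • Q)) = ENNReal.ofReal ((1 + ε) ^ 2) * volume Q := by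
      rw [measure_vadd, Measure.addHaar_smul, hV, abs_of_nonneg (by positivity)]
    have hle := measure_mono (μ := (volume : Measure V)) hincl
    rw [hvol] at hle
    have hle2 := ENNReal.toReal_mono
      (ENNReal.mul_ne_top ENNReal.ofReal_ne_top hQc.measure_ne_top) hle
    rw [ENNReal.toReal_mul, ENNReal.toReal_ofReal (by positivity)] at hle2
    have hs : ∑ i ∈ Finset.range k, inner ℝ (ε • nn i) (x i - y i) =
        ε * ∑ i ∈ Finset.range k, inner ℝ (nn i) (x i - y i) := by
      rw [Finset.mul_sum]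
      exact Finset.sum_congr rfl fun i _ => by rw [inner_smul_left, conj_trivial]
    rw [hs] at h4
    have h6 : ε * ∑ i ∈ Finset.range k, inner ℝ (nn i) (x i - y i) ≤ ε * ((2 + ε) * A) := by
      nlinarith
    exact le_of_mul_le_mul_left h6 hε
  apply le_of_forall_pos_le_add
  intro δ hδ
  have h := main (δ / (A + 1)) (by positivity)
  have h2 : δ / (A + 1) * A ≤ δ := by
    rw [div_mul_eq_mul_div, div_le_iff₀ (by positivity)]
    nlinarith
  nlinarith

end Plane

/-- The area of one shadow for a body containing a zonotope. -/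
theorem zono_shadow {K : Set E3} (hKc : IsCompact K) (hK : Convex ℝ K) (u : sphere (0:E3) 1)
    {x₀ : E3} {a nn x y : ℕ → E3} {k : ℕ}
    (hZ : ∀ t : ℕ → ℝ, (∀ i, t i ∈ Icc (0:ℝ) 1) → x₀ + ∑ i ∈ Finset.range k, t i • a i ∈ K)
    (hu : ∀ i, inner ℝ (nn i) (u : E3) = (0:ℝ)) (ha : ∀ i, inner ℝ (nn i) (a i) = (0:ℝ))
    (hn : ∀ i, ‖nn i‖ ^ 2 = ‖a i‖ ^ 2 - (inner ℝ (a i) (u : E3)) ^ 2)
    (hx : ∀ i, x i ∈ K) (hy : ∀ i, y i ∈ K) :
    ∑ i ∈ Finset.range k, inner ℝ (nn i) (x i - y i) ≤
      2 * (volume (shadow K (u : E3))).toReal := by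
  set P := ((ℝ ∙ (u : E3))ᗮ).orthogonalProjectionOnto with hP
  have hmemPerp : ∀ n : E3, inner ℝ n (u : E3) = (0:ℝ) → n ∈ (ℝ ∙ (u : E3))ᗮ := by
    intro n hn
    rw [Submodule.mem_orthogonal_singleton_iff_inner_left]
    exact hn
  set nn' : ℕ → ((ℝ ∙ (u : E3))ᗮ : Submodule ℝ E3) := fun i => ⟨nn i, hmemPerp _ (hu i)⟩ with hnn'
  have hmem : ∀ v ∈ K, P v ∈ shadow K (u : E3) := fun v hv => ⟨v, hv, rfl⟩
  have hinner : ∀ (n : ((ℝ ∙ (u : E3))ᗮ : Submodule ℝ E3)) (v : E3),
      inner ℝ n (P v) = inner ℝ (n : E3) v :=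
    fun n v => Submodule.inner_orthogonalProjectionOnto_eq_of_mem_left n v
  have key := zono_plane (finrank_perp u) (shadow_compact hKc u) (shadow_convex hK u)
    (x₀ := P x₀) (a := fun i => P (a i)) (nn := nn') (x := fun i => P (x i))
    (y := fun i => P (y i)) (k := k)
    (by
      intro t ht
      have h1 : P x₀ + ∑ i ∈ Finset.range k, t i • P (a i) =
          P (x₀ + ∑ i ∈ Finset.range k, t i • a i) := by
        rw [map_add, map_sum]
        simp only [map_smul]
      rw [h1]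
      exact hmem _ (hZ t ht))
    (fun i => by rw [real_inner_comm, hinner]; exact ha i)
    (fun i => by
      have h1 := norm_proj_sq u (a i)
      have h2 : ‖nn' i‖ ^ 2 = ‖P (a i)‖ ^ 2 := by
        rw [hP, h1, ← hn i]; rfl
      exact (sq_eq_sq₀ (norm_nonneg _) (norm_nonneg _)).mp h2)
    (fun i => hmem _ (hx i)) (fun i => hmem _ (hy i))
  refine le_trans (le_of_eq ?_) key
  refine Finset.sum_congr rfl fun i _ => ?_
  rw [← map_sub, hinner]

/-- If a convex body `K` contains the zonotope `x₀ + ∑ [0, a i]` then its surface area is at least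
`(∑ ‖a i‖) / 2` times the minimal shadow perimeter. -/
theorem zono_bound {K : Set E3} (hKc : IsCompact K) (hK : Convex ℝ K)
    {x₀ : E3} {a : ℕ → E3} {k : ℕ}
    (hZ : ∀ t : ℕ → ℝ, (∀ i, t i ∈ Icc (0:ℝ) 1) → x₀ + ∑ i ∈ Finset.range k, t i • a i ∈ K) :
    (∑ i ∈ Finset.range k, ‖a i‖) / 2 * minShadow K ≤ surfaceArea K := by
  have hne : K.Nonempty := ⟨_, hZ (fun _ => 0) fun _ => ⟨le_rfl, zero_le_one⟩⟩
  choose f hf using fun i => exists_frame (a i)
  set A1 : ℕ → sphere (0:E3) 1 → ℝ :=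
    fun i u => supp K (turn (f i) ‖a i‖ (f i 1) (-f i 0) u) with hA1
  set A2 : ℕ → sphere (0:E3) 1 → ℝ :=
    fun i u => supp K (turn (f i) ‖a i‖ (-f i 1) (- -f i 0) u) with hA2
  have iA1 : ∀ i, Integrable (A1 i) (volume : Measure E3).toSphere :=
    fun i => supp_turn_integrable hKc hne (f i) _ _ _
  have iA2 : ∀ i, Integrable (A2 i) (volume : Measure E3).toSphere :=
    fun i => supp_turn_integrable hKc hne (f i) _ _ _
  have iS : ∀ i, Integrable (fun u => A1 i u + A2 i u) (volume : Measure E3).toSphere :=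
    fun i => (iA1 i).add (iA2 i)
  have hint : Integrable (fun u => (∑ i ∈ Finset.range k, (A1 i u + A2 i u)) / 2)
      (volume : Measure E3).toSphere :=
    (integrable_finsetSum (Finset.range k) fun i _ => iS i).div_const 2
  have hnn : ∀ u, 0 ≤ (∑ i ∈ Finset.range k, (A1 i u + A2 i u)) / 2 := by
    intro u
    refine div_nonneg (Finset.sum_nonneg fun i _ => ?_) (by norm_num)
    have h1 := supp_add_neg_nonneg hKc hne (turn (f i) ‖a i‖ (f i 1) (-f i 0) u)
    rw [turn_neg] at h1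
    exact h1
  have hle : ∀ u : sphere (0:E3) 1, (∑ i ∈ Finset.range k, (A1 i u + A2 i u)) / 2 ≤
      (volume (shadow K (u : E3))).toReal := by
    intro u
    choose x hx hx1 hx2 using fun i => exists_supp hKc hne (turn (f i) ‖a i‖ (f i 1) (-f i 0) u)
    choose y hy hy1 hy2 using
      fun i => exists_supp hKc hne (turn (f i) ‖a i‖ (-f i 1) (- -f i 0) u)
    have key := zono_shadow hKc hK u hZ (nn := fun i => turn (f i) ‖a i‖ (f i 1) (-f i 0) u)
      (fun i => (turn_props (f i) (hf i) u).1) (fun i => (turn_props (f i) (hf i) u).2.1)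
      (fun i => (turn_props (f i) (hf i) u).2.2) hx hy
    have hsum : ∑ i ∈ Finset.range k, (A1 i u + A2 i u) =
        ∑ i ∈ Finset.range k, inner ℝ (turn (f i) ‖a i‖ (f i 1) (-f i 0) u) (x i - y i) := by
      refine Finset.sum_congr rfl fun i _ => ?_
      have e1 := hx1 i
      have e2 := hy1 i
      rw [← turn_neg, inner_neg_right] at e2
      rw [real_inner_comm] at e1 e2
      rw [turn_neg] at e2
      rw [inner_sub_right, e1]
      simp only [hA1, hA2]
      linarith
    rw [hsum]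
    linarith
  have h := le_surfaceArea hKc hint hnn hle
  refine le_trans ?_ h
  have hI : ∫ u, ∑ i ∈ Finset.range k, (A1 i u + A2 i u) ∂(volume : Measure E3).toSphere =
      ∑ i ∈ Finset.range k, (∫ u, A1 i u ∂(volume : Measure E3).toSphere +
        ∫ u, A2 i u ∂(volume : Measure E3).toSphere) := by
    rw [integral_finsetSum _ fun i _ => iS i]
    exact Finset.sum_congr rfl fun i _ => integral_add (iA1 i) (iA2 i)
  rw [integral_div, hI]
  have hpi : 0 < π := pi_pos
  have hone : ∀ i, π * ‖a i‖ * minShadow K ≤ ∫ u, A1 i u ∂(volume : Measure E3).toSphere +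
      ∫ u, A2 i u ∂(volume : Measure E3).toSphere := by
    intro i
    have n0 : ‖f i 0‖ = 1 := (f i).norm_eq_one 0
    have n1 : ‖f i 1‖ = 1 := (f i).norm_eq_one 1
    have n10 : (inner ℝ (f i 1) (f i 0) : ℝ) = 0 := by rw [inner_f]; simp
    have o1 : Orthonormal ℝ ![f i 1, -f i 0] :=
      orthonormal_pair n1 (by rw [norm_neg]; exact n0) (by rw [inner_neg_right, n10, neg_zero])
    have o2 : Orthonormal ℝ ![-f i 1, - -f i 0] :=
      orthonormal_pair (by rw [norm_neg]; exact n1) (by rw [neg_neg]; exact n0)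
        (by rw [neg_neg, inner_neg_left, n10, neg_zero])
    have jA1 : ∫ u, A1 i u ∂(volume : Measure E3).toSphere = _ :=
      supp_turn_integral hKc hne (f i) (norm_nonneg (a i)) (f i 1) (-f i 0)
    have jA2 : ∫ u, A2 i u ∂(volume : Measure E3).toSphere = _ :=
      supp_turn_integral hKc hne (f i) (norm_nonneg (a i)) (-f i 1) (- -f i 0)
    rw [jA1, jA2]
    have m1 := minShadow_le hKc hne o1
    have m2 := minShadow_le hKc hne o2
    have hc : 0 ≤ ‖a i‖ * (π / 2) := by positivity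
    have e1 := mul_le_mul_of_nonneg_left m1 hc
    have e2 := mul_le_mul_of_nonneg_left m2 hc
    linarith
  have hall : ∑ i ∈ Finset.range k, π * ‖a i‖ * minShadow K ≤
      ∑ i ∈ Finset.range k, (∫ u, A1 i u ∂(volume : Measure E3).toSphere +
        ∫ u, A2 i u ∂(volume : Measure E3).toSphere) := Finset.sum_le_sum fun i _ => hone i
  have e3 : (∑ i ∈ Finset.range k, ‖a i‖) / 2 * minShadow K =
      1 / π * ((∑ i ∈ Finset.range k, π * ‖a i‖ * minShadow K) / 2) := by
    have : ∑ i ∈ Finset.range k, π * ‖a i‖ * minShadow K =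
        π * ((∑ i ∈ Finset.range k, ‖a i‖) * minShadow K) := by
      rw [Finset.sum_mul, Finset.mul_sum]
      exact Finset.sum_congr rfl fun i _ => by ring
    rw [this]
    field_simp
  rw [e3]
  refine mul_le_mul_of_nonneg_left ?_ (by positivity)
  linarith

end SanSym
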