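import Pool.Agent.H.MP_72c0ec_gt.Sym.Zono
import Pool.Agent.H.MP_72c0ec_gt.Integral

set_option autoImplicit false

open MeasureTheory Set Real Metric
open scoped Pointwise ENNReal RealInnerProductSpace

namespace SanSym

open San

/-! ### A trigonometric sum -/

theorem integral_abs_cos_pi (a : ℝ) : ∫ t in a..(a + π), |cos t| = 2 := by
  have hper : Function.Periodic (fun t : ℝ => |cos t|) π := by
    intro t
    simp only [cos_add_pi, abs_neg]
  have hint : ∀ x y : ℝ, IntervalIntegrable (fun t : ℝ => |cos t|) volume x y :=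
    fun x y => (continuous_cos.abs).intervalIntegrable x y
  have h1 := intervalIntegral.integral_add_adjacent_intervals (hint a (a + π))
    (hint (a + π) (a + π + π))
  have h2 := hper.intervalIntegral_add_eq a (a + π)
  have h3 : ∫ t in a..(a + π + π), |cos t| = 4 := by
    have hper2 : Function.Periodic (fun t : ℝ => |cos t|) (2 * π) := by
      intro t
      simp only [cos_add_two_pi]
    have h4 := hper2.intervalIntegral_add_eq a 0
    rw [zero_add, integral_abs_cos] at h4
    rw [← h4]
    congr 1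
    ring
  linarith

theorem sum_abs_cos_le {n : ℕ} (hn : 0 < n) (φ : ℝ) :
    (∑ k ∈ Finset.range n, |cos (k * (π / n) - φ)|) * sin (π / (2 * n)) ≤ 1 := by
  have hn0 : (0:ℝ) < n := by exact_mod_cast hn
  have hpi : 0 < π := pi_pos
  set δ : ℝ := π / (2 * n) with hδ
  have hδ0 : 0 < δ := by positivity
  have hδπ : δ ≤ π := by
    rw [hδ, div_le_iff₀ (by positivity)]
    have : (1:ℝ) ≤ n := by exact_mod_cast hn
    nlinarith
  have hsin : 0 ≤ sin δ := sin_nonneg_of_nonneg_of_le_pi hδ0.le hδπ
  set p : ℕ → ℝ := fun k => k * (π / n) - φ - δ with hp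
  have hint : ∀ x y : ℝ, IntervalIntegrable (fun t : ℝ => |cos t|) volume x y :=
    fun x y => (continuous_cos.abs).intervalIntegrable x y
  have hstep : ∀ k : ℕ, p (k + 1) = k * (π / n) - φ + δ := by
    intro k
    simp only [hp, hδ]
    push_cast
    field_simp
    ring
  have hterm : ∀ k : ℕ, 2 * (|cos (k * (π / n) - φ)| * sin δ) ≤
      ∫ t in (p k)..(p (k + 1)), |cos t| := by
    intro k
    have h1 : ∫ t in (p k)..(p (k + 1)), cos t = 2 * (cos (k * (π / n) - φ) * sin δ) := by
      rw [integral_cos, hstep]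
      simp only [hp]
      rw [sin_add, sin_sub (↑k * (π / ↑n) - φ) δ]
      ring
    have h2 : |∫ t in (p k)..(p (k + 1)), cos t| ≤ ∫ t in (p k)..(p (k + 1)), |cos t| := by
      refine intervalIntegral.abs_integral_le_integral_abs ?_
      rw [hstep]
      simp only [hp]
      linarith
    rw [h1, abs_mul, abs_mul, abs_of_nonneg hsin, abs_of_pos (by norm_num : (0:ℝ) < 2)] at h2
    exact h2
  have hsum : ∑ k ∈ Finset.range n, ∫ t in (p k)..(p (k + 1)), |cos t| =
      ∫ t in (p 0)..(p n), |cos t| :=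
    intervalIntegral.sum_integral_adjacent_intervals fun k _ => hint _ _
  have htot : ∫ t in (p 0)..(p n), |cos t| = 2 := by
    have h1 : p n = p 0 + π := by
      simp only [hp]
      push_cast
      field_simp
      ring
    rw [h1]
    exact integral_abs_cos_pi _
  have h3 : 2 * ((∑ k ∈ Finset.range n, |cos (k * (π / n) - φ)|) * sin δ) ≤
      ∫ t in (p 0)..(p n), |cos t| := by
    rw [← hsum, Finset.sum_mul, Finset.mul_sum]
    exact Finset.sum_le_sum fun k _ => hterm k
  rw [htot] at h3
  linarith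

/-- Polar coordinates in the plane of `f 0, f 1`. -/
theorem exists_polar (f : OrthonormalBasis (Fin 3) ℝ E3) {w : E3}
    (hw : inner ℝ w (f 2) = (0:ℝ)) : ∃ φ : ℝ, ‖w‖ = inner ℝ w (dir f φ) := by
  set z : ℂ := ⟨inner ℝ w (f 0), inner ℝ w (f 1)⟩ with hz
  have hx : (inner ℝ w (f 0) : ℝ) = ‖z‖ * cos z.arg := by
    rw [Complex.norm_mul_cos_arg]
  have hy : (inner ℝ w (f 1) : ℝ) = ‖z‖ * sin z.arg := by
    rw [Complex.norm_mul_sin_arg]
  have hsum := f.sum_sq_norm_inner_left w
  rw [Fin.sum_univ_three, hw] at hsum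
  simp only [Real.norm_eq_abs, sq_abs] at hsum
  have hcs := cos_sq_add_sin_sq z.arg
  have hnz : ‖w‖ = ‖z‖ := by
    have : ‖w‖ ^ 2 = ‖z‖ ^ 2 := by
      rw [← hsum, hx, hy]
      linear_combination ‖z‖ ^ 2 * hcs
    exact (sq_eq_sq₀ (norm_nonneg _) (norm_nonneg _)).mp this
  refine ⟨z.arg, ?_⟩
  simp only [dir, inner_add_right, inner_smul_right]
  rw [hx, hy, hnz]
  linear_combination -‖z‖ * hcs

theorem inner_dir_dir (f : OrthonormalBasis (Fin 3) ℝ E3) (s t : ℝ) :
    (inner ℝ (dir f s) (dir f t) : ℝ) = cos (s - t) := by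
  have h01 : (inner ℝ (f 0) (f 1) : ℝ) = 0 := by rw [inner_f]; simp
  have h10 : (inner ℝ (f 1) (f 0) : ℝ) = 0 := by rw [inner_f]; simp
  have h00 : (inner ℝ (f 0) (f 0) : ℝ) = 1 := by rw [inner_f]; simp
  have h11 : (inner ℝ (f 1) (f 1) : ℝ) = 1 := by rw [inner_f]; simp
  simp only [dir, inner_add_left, inner_add_right, inner_smul_left, inner_smul_right,
    h01, h10, h00, h11, conj_trivial]
  rw [cos_sub]
  ring

theorem norm_dir (f : OrthonormalBasis (Fin 3) ℝ E3) (t : ℝ) : ‖dir f t‖ = 1 := by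
  have h1 := (dir_props f t).1
  rw [real_inner_self_eq_norm_sq] at h1
  have h2 := norm_nonneg (dir f t)
  nlinarith

/-- A convex set containing a disc of radius `ρ` parallel to the plane of `f 0, f 1`. -/
theorem disc_bound {K : Set E3} (hKc : IsCompact K) (hK : Convex ℝ K)
    (f : OrthonormalBasis (Fin 3) ℝ E3) {p₀ : E3} {ρ : ℝ} (hρ : 0 ≤ ρ)
    (hdisc : ∀ w : E3, inner ℝ w (f 2) = (0:ℝ) → ‖w‖ ≤ ρ → p₀ + w ∈ K) (hm : 0 ≤ minShadow K) :
    π / 2 * ρ * minShadow K ≤ surfaceArea K := by
  have hpi : 0 < π := pi_pos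
  have hmain : ∀ n : ℕ, 0 < n →
      n * sin (π / (2 * n)) * ρ * minShadow K ≤ surfaceArea K := by
    intro n hn
    have hn0 : (0:ℝ) < n := by exact_mod_cast hn
    set c : ℝ := 2 * ρ * sin (π / (2 * n)) with hc
    have hδπ : π / (2 * n) ≤ π := by
      rw [div_le_iff₀ (by positivity)]
      have : (1:ℝ) ≤ n := by exact_mod_cast hn
      nlinarith
    have hsin : 0 ≤ sin (π / (2 * n)) := sin_nonneg_of_nonneg_of_le_pi (by positivity) hδπ
    have hc0 : 0 ≤ c := by positivity
    set a : ℕ → E3 := fun k => c • dir f (k * (π / n)) with ha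
    have hna : ∀ k, ‖a k‖ = c := by
      intro k
      simp only [ha]
      rw [norm_smul, norm_dir, mul_one, Real.norm_eq_abs, abs_of_nonneg hc0]
    have key := zono_bound hKc hK (x₀ := p₀ - (1 / 2 : ℝ) • ∑ k ∈ Finset.range n, a k) (a := a)
      (k := n) (by
        intro t ht
        have h1 : p₀ - (1 / 2 : ℝ) • ∑ k ∈ Finset.range n, a k + ∑ k ∈ Finset.range n, t k • a k =
            p₀ + ∑ k ∈ Finset.range n, (t k - 1 / 2) • a k := by
          have : ∑ k ∈ Finset.range n, (t k - 1 / 2) • a k =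
              ∑ k ∈ Finset.range n, t k • a k - (1 / 2 : ℝ) • ∑ k ∈ Finset.range n, a k := by
            rw [Finset.smul_sum, ← Finset.sum_sub_distrib]
            exact Finset.sum_congr rfl fun k _ => sub_smul _ _ _
          rw [this]
          abel
        rw [h1]
        refine hdisc _ ?_ ?_
        · rw [sum_inner]
          refine Finset.sum_eq_zero fun k _ => ?_
          simp only [ha]
          rw [inner_smul_left, inner_smul_left, (dir_props f _).2.2.2.1, mul_zero, mul_zero]
        · set w := ∑ k ∈ Finset.range n, (t k - 1 / 2) • a k with hw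
          have hw2 : (inner ℝ w (f 2) : ℝ) = 0 := by
            rw [hw, sum_inner]
            refine Finset.sum_eq_zero fun k _ => ?_
            simp only [ha]
            rw [inner_smul_left, inner_smul_left, (dir_props f _).2.2.2.1, mul_zero, mul_zero]
          obtain ⟨φ, hφ⟩ := exists_polar f hw2
          rw [hφ, hw, sum_inner]
          have h2 : ∀ k ∈ Finset.range n, (inner ℝ ((t k - 1 / 2) • a k) (dir f φ) : ℝ) ≤
              c / 2 * |cos (k * (π / n) - φ)| := by
            intro k _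
            simp only [ha]
            rw [inner_smul_left, inner_smul_left, inner_dir_dir, conj_trivial, conj_trivial]
            have h3 : |t k - 1 / 2| ≤ 1 / 2 := by
              have := ht k
              rw [abs_le]
              constructor <;> linarith [this.1, this.2]
            calc (t k - 1 / 2) * (c * cos (k * (π / n) - φ))
                ≤ |(t k - 1 / 2) * (c * cos (k * (π / n) - φ))| := le_abs_self _
              _ = |t k - 1 / 2| * (c * |cos (k * (π / n) - φ)|) := by
                  rw [abs_mul, abs_mul, abs_of_nonneg hc0]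
              _ ≤ 1 / 2 * (c * |cos (k * (π / n) - φ)|) :=
                  mul_le_mul_of_nonneg_right h3 (by positivity)
              _ = _ := by ring
          refine (Finset.sum_le_sum h2).trans ?_
          rw [← Finset.mul_sum, hc]
          have h4 := mul_le_mul_of_nonneg_left (sum_abs_cos_le hn φ) hρ
          linarith)
    rw [Finset.sum_congr rfl fun k _ => hna k, Finset.sum_const, Finset.card_range,
      nsmul_eq_mul] at key
    refine le_trans (le_of_eq ?_) key
    rw [hc]
    ring
  -- the limit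
  have hlim : ∀ n : ℕ, 2 ≤ n → π / 2 - 1 / (n:ℝ) ^ 2 ≤ n * sin (π / (2 * n)) := by
    intro n hn
    have hn0 : (2:ℝ) ≤ n := by exact_mod_cast hn
    have hnpos : (0:ℝ) < n := by linarith
    have hx0 : 0 < π / (2 * n) := by positivity
    have h1 := Real.sin_gt_sub_cube hx0
    have h2 : n * (π / (2 * n) - (π / (2 * n)) ^ 3 / 6) = π / 2 - π ^ 3 / 48 * (1 / (n:ℝ) ^ 2) := by
      field_simp
      ring
    have h3 : π ^ 3 / 48 ≤ 1 := by
      have h4 := pi_lt_d2
      have h5 : π ^ 3 ≤ 3.15 ^ 3 := pow_le_pow_left₀ hpi.le h4.le 3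
      have h6 : (3.15 : ℝ) ^ 3 ≤ 48 := by norm_num
      linarith
    have h7 : 0 < 1 / (n:ℝ) ^ 2 := by positivity
    have h8 : π ^ 3 / 48 * (1 / (n:ℝ) ^ 2) ≤ 1 * (1 / (n:ℝ) ^ 2) :=
      mul_le_mul_of_nonneg_right h3 h7.le
    have h9 : n * (π / (2 * n) - (π / (2 * n)) ^ 3 / 6) ≤ n * sin (π / (2 * n)) :=
      mul_le_mul_of_nonneg_left h1.le hnpos.le
    rw [h2] at h9
    linarith
  apply le_of_forall_pos_le_add
  intro δ hδ
  set q : ℝ := ρ * minShadow K with hq
  have hq0 : 0 ≤ q := mul_nonneg hρ hm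
  obtain ⟨N, hN⟩ := exists_nat_gt (q / δ)
  set n : ℕ := N + 2 with hn
  have hn2 : 2 ≤ n := by omega
  have hnR : (2:ℝ) ≤ n := by exact_mod_cast hn2
  have hNn : q / δ < n := lt_of_lt_of_le hN (by exact_mod_cast (by omega : N ≤ n))
  have h1 := hmain n (by omega)
  have h2 := mul_le_mul_of_nonneg_right (hlim n hn2) hq0
  have h3 : q < δ * n := by
    rw [div_lt_iff₀ hδ] at hNn
    linarith
  have h4 : 1 / (n:ℝ) ^ 2 * q ≤ δ := by
    rw [div_mul_eq_mul_div, one_mul, div_le_iff₀ (by positivity)]
    nlinarith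
  have h5 : π / 2 * ρ * minShadow K = π / 2 * q := by rw [hq]; ring
  have h6 : n * sin (π / (2 * n)) * ρ * minShadow K = n * sin (π / (2 * n)) * q := by rw [hq]; ring
  rw [h6] at h1
  rw [h5]
  linarith

end SanSym
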