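/-
MP_72c0ec_gt (Santalo's shadow perimeter inequality), helper9: bodies of revolution, conclusion.
-/
import Pool.Agent.H.MP_72c0ec_gt.Sym.Rev

set_option autoImplicit false

open MeasureTheory Set Real Metric
open scoped Pointwise ENNReal RealInnerProductSpace

namespace SanSym

open San

theorem translate_eq (K : Set E3) (p : E3) : (fun x => x - p) '' K = (-p) +ᵥ K := by
  ext y
  constructor
  · rintro ⟨x, hx, rfl⟩
    exact ⟨x, hx, by show -p + x = x - p; abel⟩
  · rintro ⟨x, hx, rfl⟩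
    exact ⟨x, hx, by show x - p = -p + x; abel⟩

theorem translate_props {K : Set E3} (hKc : IsCompact K) (hK : Convex ℝ K)
    (hint : (interior K).Nonempty) (p : E3) :
    IsCompact ((fun x => x - p) '' K) ∧ Convex ℝ ((fun x => x - p) '' K) ∧
      (interior ((fun x => x - p) '' K)).Nonempty := by
  refine ⟨hKc.image (by fun_prop), ?_, ?_⟩
  · rw [translate_eq]
    exact hK.vadd _
  · rw [translate_eq, interior_vadd]
    obtain ⟨c, hc⟩ := hint
    exact ⟨_, ⟨c, hc, rfl⟩⟩

/-- The minimal shadow perimeter of a body containing a ball about the origin is positive. -/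
theorem minShadow_pos_of_ball {K : Set E3} (hKc : IsCompact K) {r : ℝ} (hr : 0 < r)
    (hmem : ∀ w : E3, ‖w‖ < r → w ∈ K) : 0 < minShadow K := by
  have hne : K.Nonempty := ⟨0, hmem 0 (by rw [norm_zero]; exact hr)⟩
  have hbound : ∀ L ∈ {L | ∃ e₁ e₂ : E3, Orthonormal ℝ ![e₁, e₂] ∧ L = shadowPerimeter K e₁ e₂},
      r * π ≤ L := by
    rintro _ ⟨e₁, e₂, ho, rfl⟩
    have hcont : Continuous fun t : ℝ => supp K (cos t • e₁ + sin t • e₂) :=
      (supp_continuous hKc hne).comp (by fun_prop)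
    have hlow : ∀ t : ℝ, r / 2 ≤ supp K (cos t • e₁ + sin t • e₂) := by
      intro t
      have h1 : ‖e₁‖ = 1 := ho.1 0
      have h2 : ‖e₂‖ = 1 := ho.1 1
      have h3 : (inner ℝ e₁ e₂ : ℝ) = 0 := ho.2 (i := 0) (j := 1) (by decide)
      have h4 : ‖cos t • e₁ + sin t • e₂‖ ^ 2 = 1 := by
        rw [norm_add_sq_real, norm_smul, norm_smul, h1, h2, inner_smul_left, inner_smul_right, h3,
          Real.norm_eq_abs, Real.norm_eq_abs, mul_one, mul_one, sq_abs, sq_abs]
        have := cos_sq_add_sin_sq t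
        linarith
      have h5 : ‖cos t • e₁ + sin t • e₂‖ = 1 := by
        have h6 := norm_nonneg (cos t • e₁ + sin t • e₂)
        nlinarith
      obtain ⟨x, -, -, hx2⟩ := exists_supp hKc hne (cos t • e₁ + sin t • e₂)
      have h7 := hx2 ((r / 2) • (cos t • e₁ + sin t • e₂)) (hmem _ (by
        rw [norm_smul, h5, mul_one, Real.norm_eq_abs, abs_of_pos (by positivity)]; linarith))
      rw [inner_smul_left, conj_trivial, real_inner_self_eq_norm_sq, h4, mul_one] at h7
      exact h7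
    have h0 : (∫ _t in (0:ℝ)..(2 * π), r / 2) ≤ shadowPerimeter K e₁ e₂ :=
      intervalIntegral.integral_mono_on (by positivity) (by simp) (hcont.intervalIntegrable _ _)
        (fun t _ => hlow t)
    rw [intervalIntegral.integral_const, smul_eq_mul] at h0
    linarith
  have hset : {L | ∃ e₁ e₂ : E3, Orthonormal ℝ ![e₁, e₂] ∧
      L = shadowPerimeter K e₁ e₂}.Nonempty := by
    set f := EuclideanSpace.basisFun (Fin 3) ℝ
    have h10 : (inner ℝ (f 0) (f 1) : ℝ) = 0 := by rw [inner_f]; simp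
    exact ⟨_, f 0, f 1, orthonormal_pair (f.norm_eq_one 0) (f.norm_eq_one 1) h10, rfl⟩
  have h8 : r * π ≤ minShadow K := le_csInf hset hbound
  have h9 : 0 < r * π := mul_pos hr pi_pos
  linarith

/-- The minimal shadow perimeter of a convex body is positive. -/
theorem minShadow_pos' {K : Set E3} (hKc : IsCompact K) (hint : (interior K).Nonempty) :
    0 < minShadow K := by
  have hne : K.Nonempty := hint.mono interior_subset
  obtain ⟨c, hc⟩ := hint
  obtain ⟨r, hr, hball⟩ := Metric.isOpen_iff.mp isOpen_interior c hc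
  rw [← minShadow_translate hKc hne c]
  refine minShadow_pos_of_ball (hKc.image (by fun_prop)) hr fun w hw => ?_
  refine ⟨c + w, interior_subset (hball ?_), by simp⟩
  rw [mem_ball, dist_eq_norm, add_sub_cancel_left]
  exact hw

/-- Bodies of revolution about an axis through the origin. -/
theorem rev_main {K : Set E3} (hKc : IsCompact K) (hK : Convex ℝ K)
    (hint : (interior K).Nonempty) (f : OrthonormalBasis (Fin 3) ℝ E3)
    (hrev : ∀ x ∈ K, ∀ y : E3, (inner ℝ y (f 2) : ℝ) = inner ℝ x (f 2) → ‖y‖ = ‖x‖ → y ∈ K) :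
    minShadow K ^ 2 ≤ 4 * surfaceArea K ∧ 0 < surfaceArea K := by
  have hne : K.Nonempty := hint.mono interior_subset
  have hm : 0 < minShadow K := minShadow_pos' hKc hint
  have hpi : 0 < π := pi_pos
  -- the point farthest from the axis
  obtain ⟨x, hx, hmax⟩ := hKc.exists_isMaxOn hne
    (f := fun x : E3 => ‖x‖ ^ 2 - (inner ℝ x (f 2) : ℝ) ^ 2) (by fun_prop)
  have hmax' : ∀ y ∈ K, ‖y‖ ^ 2 - (inner ℝ y (f 2) : ℝ) ^ 2 ≤
      ‖x‖ ^ 2 - (inner ℝ x (f 2) : ℝ) ^ 2 := fun y hy => hmax hy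
  set l : ℝ := inner ℝ x (f 2) with hl
  have hpar := dir_parseval f 0 x
  have hd0 : 0 ≤ ‖x‖ ^ 2 - l ^ 2 := by rw [← hpar]; positivity
  set ρ : ℝ := √(‖x‖ ^ 2 - l ^ 2) with hρ
  have hρsq : ρ ^ 2 = ‖x‖ ^ 2 - l ^ 2 := Real.sq_sqrt hd0
  have hρ0 : 0 ≤ ρ := Real.sqrt_nonneg _
  have h22 : (inner ℝ (f 2) (f 2) : ℝ) = 1 := by rw [inner_f]; simp
  -- the circle
  have hcirc : ∀ w : E3, (inner ℝ w (f 2) : ℝ) = 0 → ‖w‖ = ρ → l • f 2 + w ∈ K := by
    intro w hw hwn
    refine hrev x hx _ ?_ ?_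
    · rw [inner_add_left, inner_smul_left, h22, hw, conj_trivial]
      simp only [mul_one, add_zero]
      exact hl.symm
    · have h1 : ‖l • f 2 + w‖ ^ 2 = ‖x‖ ^ 2 := by
        rw [norm_add_sq_real, inner_smul_left, real_inner_comm, hw, norm_smul, f.norm_eq_one 2,
          hwn, hρsq, mul_one, Real.norm_eq_abs, sq_abs]
        simp only [conj_trivial, mul_zero, add_zero]
        ring
      exact (sq_eq_sq₀ (norm_nonneg _) (norm_nonneg _)).mp h1
  -- the disc
  have hdisc : ∀ w : E3, (inner ℝ w (f 2) : ℝ) = 0 → ‖w‖ ≤ ρ → l • f 2 + w ∈ K := by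
    intro w hw hwn
    by_cases hw0 : w = 0
    · have h1 : (inner ℝ (ρ • f 0) (f 2) : ℝ) = 0 := by
        rw [inner_smul_left, inner_f]; simp
      have h2 : ‖ρ • f 0‖ = ρ := by
        rw [norm_smul, f.norm_eq_one 0, mul_one, Real.norm_eq_abs, abs_of_nonneg hρ0]
      have h3 := hcirc _ h1 h2
      have h4 := hcirc (-(ρ • f 0)) (by rw [inner_neg_left, h1, neg_zero]) (by rw [norm_neg, h2])
      have h5 := hK h3 h4 (a := 1 / 2) (b := 1 / 2) (by norm_num) (by norm_num) (by norm_num)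
      have h6 : (1 / 2 : ℝ) • (l • f 2 + ρ • f 0) + (1 / 2 : ℝ) • (l • f 2 + -(ρ • f 0)) =
          l • f 2 + w := by
        rw [hw0]; module
      rwa [h6] at h5
    · have hwpos : 0 < ‖w‖ := norm_pos_iff.mpr hw0
      have hρpos : 0 < ρ := lt_of_lt_of_le hwpos hwn
      set v : E3 := (ρ / ‖w‖) • w with hv
      have h1 : (inner ℝ v (f 2) : ℝ) = 0 := by rw [hv, inner_smul_left, hw, mul_zero]
      have h2 : ‖v‖ = ρ := by
        rw [hv, norm_smul, Real.norm_eq_abs, abs_of_nonneg (by positivity)]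
        field_simp
      have h3 := hcirc v h1 h2
      have h4 := hcirc (-v) (by rw [inner_neg_left, h1, neg_zero]) (by rw [norm_neg, h2])
      have h5 := hK h3 h4 (a := (1 + ‖w‖ / ρ) / 2) (b := (1 - ‖w‖ / ρ) / 2) (by positivity)
        (by
          have : ‖w‖ / ρ ≤ 1 := (div_le_one hρpos).mpr hwn
          linarith) (by ring)
      have h6 : ((1 + ‖w‖ / ρ) / 2) • (l • f 2 + v) + ((1 - ‖w‖ / ρ) / 2) • (l • f 2 + -v) =
          l • f 2 + w := by
        have h7 : (‖w‖ / ρ) • v = w := by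
          rw [hv, smul_smul]
          have : ‖w‖ / ρ * (ρ / ‖w‖) = 1 := by field_simp
          rw [this, one_smul]
        calc ((1 + ‖w‖ / ρ) / 2) • (l • f 2 + v) + ((1 - ‖w‖ / ρ) / 2) • (l • f 2 + -v)
            = l • f 2 + (‖w‖ / ρ) • v := by module
          _ = _ := by rw [h7]
      rwa [h6] at h5
  have hS := disc_bound hKc hK f hρ0 hdisc hm.le
  -- the shadow along the axis
  have h10 : (inner ℝ (f 0) (f 1) : ℝ) = 0 := by rw [inner_f]; simp
  have hL : minShadow K ≤ shadowPerimeter K (f 0) (f 1) :=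
    minShadow_le hKc hne (orthonormal_pair (f.norm_eq_one 0) (f.norm_eq_one 1) h10)
  have hcont : Continuous fun t : ℝ => supp K (cos t • f 0 + sin t • f 1) :=
    (supp_continuous hKc hne).comp (by fun_prop)
  have hup : ∀ t : ℝ, supp K (cos t • f 0 + sin t • f 1) ≤ ρ := by
    intro t
    obtain ⟨y, hy, hy1, -⟩ := exists_supp hKc hne (cos t • f 0 + sin t • f 1)
    rw [← hy1]
    have h1 := dir_parseval f t y
    have h2 := hmax' y hy
    rw [← hρsq] at h2
    have h3 : (inner ℝ y (dir f t) : ℝ) ^ 2 ≤ ρ ^ 2 := by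
      nlinarith [sq_nonneg (inner ℝ y (dir' f t) : ℝ)]
    exact abs_le_of_sq_le_sq' h3 hρ0 |>.2
  have hint2 : shadowPerimeter K (f 0) (f 1) ≤ ∫ _t in (0:ℝ)..(2 * π), ρ :=
    intervalIntegral.integral_mono_on (by positivity) (hcont.intervalIntegrable _ _) (by simp)
      (fun t _ => hup t)
  rw [intervalIntegral.integral_const, smul_eq_mul, sub_zero] at hint2
  have h4 : minShadow K ≤ 2 * π * ρ := hL.trans hint2
  have h5 : minShadow K ^ 2 ≤ 4 * surfaceArea K := by
    have h6 : minShadow K * minShadow K ≤ 2 * π * ρ * minShadow K :=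
      mul_le_mul_of_nonneg_right h4 hm.le
    nlinarith
  exact ⟨h5, by nlinarith⟩

/-- Bodies of revolution about an arbitrary axis. -/
theorem rev_result {K : Set E3} (hKc : IsCompact K) (hK : Convex ℝ K)
    (hint : (interior K).Nonempty) {p e : E3} (he : ‖e‖ = 1)
    (hrev : ∀ x ∈ K, ∀ y : E3, (inner ℝ (y - p) e : ℝ) = inner ℝ (x - p) e →
      ‖y - p‖ = ‖x - p‖ → y ∈ K) :
    minShadow K ^ 2 ≤ 4 * surfaceArea K ∧ 0 < surfaceArea K := by
  have hne : K.Nonempty := hint.mono interior_subset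
  obtain ⟨f, hf⟩ := exists_frame e
  rw [he, one_smul] at hf
  obtain ⟨h1, h2, h3⟩ := translate_props hKc hK hint p
  have h4 := rev_main h1 h2 h3 f (by
    rintro _ ⟨x, hx, rfl⟩ y hy1 hy2
    refine ⟨y + p, hrev x hx (y + p) ?_ ?_, by simp⟩
    · rw [add_sub_cancel_right, hf]
      exact hy1
    · rw [add_sub_cancel_right]
      exact hy2)
  rw [surfaceArea_translate, minShadow_translate hKc hne] at h4
  exact h4

end SanSym
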